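import Pool.Agent.H35.FL.Rg
import Pool.Agent.H94.EH.H91.EHA.GMain

/-!
# FL Bl: one dyadic block, log powers

As `gerr_of_psi` and `gblock` in H94.EH, with `x^ε` replaced by a power of `log x`.
-/

set_option autoImplicit false

namespace Pool.Agent.H35.FL

open Finset
open Pool.Agent.H91.PK
open Pool.Agent.H91.EHA

/-! ### Abel summation -/

private theorem gfinA_abel (g : ℕ → ℝ) (h1 : g 1 = 0) (x : ℕ) (hx : 2 ≤ x) :
    ∑ n ∈ Icc 1 x, g n = (∑ n ∈ Icc 1 x, g n * Real.log n) / Real.log x +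
      ∑ t ∈ Ico 2 x, (∑ n ∈ Icc 1 t, g n * Real.log n) *
        (1 / Real.log t - 1 / Real.log ((t + 1 : ℕ) : ℝ)) := by
  induction x, hx using Nat.le_induction with
  | base =>
    have hl : Real.log ((2 : ℕ) : ℝ) ≠ 0 := (Real.log_pos (by norm_num)).ne'
    have e1 : Icc 1 2 = ({1, 2} : Finset ℕ) := by decide
    rw [Ico_self, sum_empty, add_zero, e1, sum_pair (by norm_num), sum_pair (by norm_num), h1,
      zero_mul, zero_add, zero_add, mul_div_assoc, div_self hl, mul_one]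
  | succ x hx ih =>
    have hl : Real.log (((x + 1 : ℕ)) : ℝ) ≠ 0 := by
      apply (Real.log_pos _).ne'
      exact_mod_cast (by omega : 1 < x + 1)
    have hl' : Real.log (x : ℝ) ≠ 0 := by
      apply (Real.log_pos _).ne'
      exact_mod_cast (by omega : 1 < x)
    rw [sum_Icc_succ_top (by omega), sum_Icc_succ_top (by omega), sum_Ico_succ_top hx, ih]
    field_simp
    ring

private theorem gfinA_tele (x : ℕ) (hx : 2 ≤ x) :
    1 / Real.log x + ∑ t ∈ Ico 2 x, (1 / Real.log t - 1 / Real.log ((t + 1 : ℕ) : ℝ)) =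
      1 / Real.log 2 := by
  induction x, hx using Nat.le_induction with
  | base => simp
  | succ x hx ih =>
    rw [sum_Ico_succ_top hx]
    linarith only [ih]

/-! ### The functions -/

/-- the weight -/
private noncomputable def gfinA_g (q a n : ℕ) : ℝ :=
  (if n.Prime ∧ n ≡ a [MOD q] then 1 else 0) - (if n.Prime then 1 else 0) / (q.totient : ℝ)

/-- `Lam` on the numbers which are not prime -/
private noncomputable def gfinA_L (n : ℕ) : ℝ := if n.Prime then 0 else Lam n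

/-- prime powers in the class -/
private noncomputable def gfinA_pa (t q a : ℕ) : ℝ :=
  ∑ n ∈ Icc 1 t, gfinA_L n * if n ≡ a [MOD q] then 1 else 0

/-- prime powers -/
private noncomputable def gfinA_pp (t : ℕ) : ℝ := ∑ n ∈ Icc 1 t, gfinA_L n

private theorem gfinA_Lam_nonneg (n : ℕ) : 0 ≤ Lam n := ArithmeticFunction.vonMangoldt_nonneg

private theorem gfinA_L_nonneg (n : ℕ) : 0 ≤ gfinA_L n := by
  unfold gfinA_L
  split_ifs
  · exact le_rfl
  · exact gfinA_Lam_nonneg n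

private theorem gfinA_err (x q a : ℕ) :
    err x q (a : ZMod q) = ∑ n ∈ Icc 1 x, gfinA_g q a n := by
  unfold err gfinA_g
  rw [sum_sub_distrib, ← sum_div]
  congr 1
  · rw [card_filter, Nat.cast_sum]
    refine sum_congr rfl fun n _ => ?_
    by_cases h : n.Prime ∧ n ≡ a [MOD q]
    · rw [if_pos h, if_pos ⟨h.1, (ZMod.natCast_eq_natCast_iff n a q).2 h.2⟩, Nat.cast_one]
    · rw [if_neg h, if_neg, Nat.cast_zero]
      rintro ⟨h1, h2⟩
      exact h ⟨h1, (ZMod.natCast_eq_natCast_iff n a q).1 h2⟩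
  · congr 1
    have h1 : Nat.primeCounting x = ((Icc 1 x).filter Nat.Prime).card := by
      rw [Nat.primeCounting, Nat.primeCounting', Nat.count_eq_card_filter_range]
      congr 1
      ext p
      simp only [mem_filter, mem_Icc, mem_range]
      constructor
      · rintro ⟨h, hp⟩
        exact ⟨⟨hp.one_lt.le, by omega⟩, hp⟩
      · rintro ⟨⟨_, h⟩, hp⟩
        exact ⟨by omega, hp⟩
    rw [h1, card_filter, Nat.cast_sum]
    refine sum_congr rfl fun n _ => ?_
    split_ifs <;> simp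

private theorem gfinA_T (t q a : ℕ) :
    ∑ n ∈ Icc 1 t, gfinA_g q a n * Real.log n =
      (psiA t q a - t / (q.totient : ℝ)) - gfinA_pa t q a +
        (t - ∑ n ∈ Icc 1 t, Lam n) / (q.totient : ℝ) + gfinA_pp t / (q.totient : ℝ) := by
  have h1 : ∑ n ∈ Icc 1 t, gfinA_g q a n * Real.log n =
      ∑ n ∈ Icc 1 t, ((if n ≡ a [MOD q] then Lam n else 0) -
        (gfinA_L n * if n ≡ a [MOD q] then 1 else 0) - Lam n / (q.totient : ℝ) +
        gfinA_L n / (q.totient : ℝ)) := by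
    refine sum_congr rfl fun n _ => ?_
    unfold gfinA_g gfinA_L
    by_cases hp : n.Prime
    · have hL : Lam n = Real.log n := ArithmeticFunction.vonMangoldt_apply_prime hp
      rw [hL]
      by_cases ha : n ≡ a [MOD q]
      · simp [hp, ha]
        ring
      · simp [hp, ha]
        ring
    · by_cases ha : n ≡ a [MOD q]
      · simp [hp, ha]
      · simp [hp, ha]
  rw [h1, sum_add_distrib, sum_sub_distrib, sum_sub_distrib, ← sum_div, ← sum_div]
  unfold psiA gfinA_pa gfinA_pp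
  rw [sum_filter]
  ring

private theorem gfinA_abs (t q a : ℕ) :
    |∑ n ∈ Icc 1 t, gfinA_g q a n * Real.log n| ≤
      |psiA t q a - t / (q.totient : ℝ)| + gfinA_pa t q a +
        (|(∑ n ∈ Icc 1 t, Lam n) - t| + gfinA_pp t) * (1 / (q.totient : ℝ)) := by
  have hpa : 0 ≤ gfinA_pa t q a := sum_nonneg fun n _ =>
    mul_nonneg (gfinA_L_nonneg n) (by split_ifs <;> norm_num)
  have hpp : 0 ≤ gfinA_pp t := sum_nonneg fun n _ => gfinA_L_nonneg n
  have hq : 0 ≤ 1 / (q.totient : ℝ) := by positivity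
  rw [gfinA_T]
  have h1 : (t - ∑ n ∈ Icc 1 t, Lam n) / (q.totient : ℝ) =
      (t - ∑ n ∈ Icc 1 t, Lam n) * (1 / (q.totient : ℝ)) := by ring
  have h2 : gfinA_pp t / (q.totient : ℝ) = gfinA_pp t * (1 / (q.totient : ℝ)) := by ring
  rw [h1, h2]
  have h3 : |(t - ∑ n ∈ Icc 1 t, Lam n) * (1 / (q.totient : ℝ))| =
      |(∑ n ∈ Icc 1 t, Lam n) - t| * (1 / (q.totient : ℝ)) := by
    rw [abs_mul, abs_of_nonneg hq, abs_sub_comm]
  have h4 : 0 ≤ gfinA_pp t * (1 / (q.totient : ℝ)) := mul_nonneg hpp hq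
  have h5 := neg_abs_le (psiA t q a - t / (q.totient : ℝ))
  have h6 := le_abs_self (psiA t q a - t / (q.totient : ℝ))
  have h7 := neg_abs_le ((t - ∑ n ∈ Icc 1 t, Lam n) * (1 / (q.totient : ℝ)))
  have h8 := le_abs_self ((t - ∑ n ∈ Icc 1 t, Lam n) * (1 / (q.totient : ℝ)))
  rw [h3] at h7 h8
  rw [abs_le]
  constructor <;> nlinarith only [h4, h5, h7, hpa, h6, h8]

/-! ### The prime powers -/

private theorem gfinA_pp_le (t x : ℕ) (htx : t ≤ x) (hx : 1 ≤ x) :
    gfinA_pp t ≤ 2 * Real.sqrt x * Real.log x := by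
  have h1 : gfinA_pp t ≤ gfinA_pp x :=
    sum_le_sum_of_subset_of_nonneg (Icc_subset_Icc_right htx) fun n _ _ => gfinA_L_nonneg n
  refine h1.trans ?_
  have h2 := Chebyshev.psi_sub_theta_le (x := (x : ℝ)) (by exact_mod_cast hx)
  rw [Chebyshev.psi_sub_theta_eq_sum_not_prime, Nat.floor_natCast] at h2
  refine le_trans (le_of_eq ?_) h2
  unfold gfinA_pp gfinA_L Lam
  rw [sum_filter]
  simp only [ite_not]
  rfl

private theorem gfinA_count (Q n : ℕ) (H : ℝ) (S : ℕ → Finset ℕ) (hS : FamL Q H S) :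
    (∑ q ∈ Ioc Q (2 * Q), ∑ a ∈ (S q).filter (fun a => Nat.Coprime a q),
      if n ≡ a [MOD q] then (1 : ℝ) else 0) ≤
        Real.sqrt (Q * (2 * Q * H)) := by
  set m : ℕ → ℝ := fun q => (((S q).filter (fun a => n ≡ a [MOD q])).card : ℝ) with hm
  have h1 : (∑ q ∈ Ioc Q (2 * Q), ∑ a ∈ (S q).filter (fun a => Nat.Coprime a q),
      if n ≡ a [MOD q] then (1 : ℝ) else 0) ≤ ∑ q ∈ Ioc Q (2 * Q), m q := by
    refine sum_le_sum fun q _ => ?_
    have h2 : (∑ a ∈ (S q).filter (fun a => Nat.Coprime a q),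
        if n ≡ a [MOD q] then (1 : ℝ) else 0) ≤ ∑ a ∈ S q, if n ≡ a [MOD q] then (1 : ℝ) else 0 := by
      refine sum_le_sum_of_subset_of_nonneg (filter_subset _ _) fun a _ _ => ?_
      split_ifs <;> norm_num
    refine h2.trans (le_of_eq ?_)
    rw [← sum_filter, sum_const, nsmul_eq_mul, mul_one]
  refine h1.trans ?_
  have h3 : ∀ q, m q ^ 2 ≤
      ((((S q) ×ˢ (S q)).filter (fun p => p.1 ≡ p.2 [MOD q])).card : ℝ) := by
    intro q
    have h4 : ((S q).filter (fun a => n ≡ a [MOD q])) ×ˢ ((S q).filter (fun a => n ≡ a [MOD q])) ⊆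
        ((S q) ×ˢ (S q)).filter (fun p => p.1 ≡ p.2 [MOD q]) := by
      intro p hp
      rw [mem_product, mem_filter, mem_filter] at hp
      rw [mem_filter, mem_product]
      exact ⟨⟨hp.1.1, hp.2.1⟩, hp.1.2.symm.trans hp.2.2⟩
    have h5 := card_le_card h4
    rw [card_product] at h5
    rw [hm]
    calc (((S q).filter (fun a => n ≡ a [MOD q])).card : ℝ) ^ 2
        = ((((S q).filter (fun a => n ≡ a [MOD q])).card *
          ((S q).filter (fun a => n ≡ a [MOD q])).card : ℕ) : ℝ) := by push_cast; ring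
      _ ≤ _ := by exact_mod_cast h5
  have h6 : (∑ q ∈ Ioc Q (2 * Q), m q) ^ 2 ≤ Q * (2 * Q * H) := by
    refine (sq_sum_le_card_mul_sum_sq (s := Ioc Q (2 * Q)) (f := m)).trans ?_
    have h7 : 2 * Q - Q = Q := by omega
    rw [Nat.card_Ioc, h7]
    refine mul_le_mul_of_nonneg_left ?_ (Nat.cast_nonneg _)
    exact (sum_le_sum fun q _ => h3 q).trans hS.2
  exact Real.le_sqrt_of_sq_le h6

private theorem gfinA_pa_le (x Q t : ℕ) (H : ℝ) (S : ℕ → Finset ℕ) (hS : FamL Q H S)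
    (hx : 1 ≤ x) (ht : t ≤ x) :
    (∑ q ∈ Ioc Q (2 * Q), ∑ a ∈ (S q).filter (fun a => Nat.Coprime a q),
      gfinA_pa t q a) ≤
        2 * Real.sqrt x * Real.log x *
          Real.sqrt (Q * (2 * Q * H)) := by
  have h1 : (∑ q ∈ Ioc Q (2 * Q), ∑ a ∈ (S q).filter (fun a => Nat.Coprime a q),
      gfinA_pa t q a) =
      ∑ n ∈ Icc 1 t, gfinA_L n *
        ∑ q ∈ Ioc Q (2 * Q), ∑ a ∈ (S q).filter (fun a => Nat.Coprime a q),
          (if n ≡ a [MOD q] then (1 : ℝ) else 0) := by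
    unfold gfinA_pa
    simp only [mul_sum]
    have e1 : ∀ q ∈ Ioc Q (2 * Q), (∑ a ∈ (S q).filter (fun a => Nat.Coprime a q),
        ∑ n ∈ Icc 1 t, gfinA_L n * (if n ≡ a [MOD q] then (1 : ℝ) else 0)) =
        ∑ n ∈ Icc 1 t, ∑ a ∈ (S q).filter (fun a => Nat.Coprime a q),
          gfinA_L n * (if n ≡ a [MOD q] then (1 : ℝ) else 0) := fun q _ => sum_comm
    rw [sum_congr rfl e1, sum_comm]
  rw [h1]
  have h2 : ∀ n ∈ Icc 1 t, gfinA_L n *
        (∑ q ∈ Ioc Q (2 * Q), ∑ a ∈ (S q).filter (fun a => Nat.Coprime a q),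
          (if n ≡ a [MOD q] then (1 : ℝ) else 0)) ≤
        gfinA_L n * Real.sqrt (Q * (2 * Q * H)) := fun n _ =>
    mul_le_mul_of_nonneg_left (gfinA_count Q n H S hS) (gfinA_L_nonneg n)
  refine (sum_le_sum h2).trans ?_
  rw [← sum_mul]
  exact mul_le_mul_of_nonneg_right (gfinA_pp_le t x ht hx) (Real.sqrt_nonneg _)

private theorem gfinA_phi (x Q : ℕ) (H : ℝ) (S : ℕ → Finset ℕ) (hH0 : 0 ≤ H)
    (hS : ∀ q ∈ Ioc Q (2 * Q), ((S q).card : ℝ) ≤ H) (hL : 1 ≤ Real.log x) (hQ : 1 ≤ Q) (hQx : Q ≤ x) :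
    (∑ q ∈ Ioc Q (2 * Q), ∑ _a ∈ (S q).filter (fun a => Nat.Coprime a q),
      (1 / (q.totient : ℝ))) ≤ H * (4 * Real.log x) := by
  have hQ' : (0 : ℝ) < Q := by exact_mod_cast hQ
  have h1 : ∀ q ∈ Ioc Q (2 * Q), (∑ _a ∈ (S q).filter (fun a => Nat.Coprime a q),
      (1 / (q.totient : ℝ))) ≤ H * (4 * Real.log x) / Q := by
    intro q hq
    have hcard : (((S q).filter (fun a => Nat.Coprime a q)).card : ℝ) ≤ H := by
      refine le_trans ?_ (hS q hq)
      exact_mod_cast card_filter_le _ _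
    rw [mem_Ioc] at hq
    have hq0 : 0 < q := by omega
    have hphi : (0 : ℝ) < q.totient := by exact_mod_cast Nat.totient_pos.2 hq0
    have h2 : (q : ℝ) ≤ q.totient * (4 * Real.log x) := by
      refine (Pool.Agent.H92.EH.le_totient_mul q).trans ?_
      refine mul_le_mul_of_nonneg_left ?_ hphi.le
      have h3 : (q.primeFactors.card : ℝ) ≤ Nat.log 2 q := by
        exact_mod_cast Pool.Agent.H92.EH.card_primeFactors_le q
      have h4 : ((Nat.log 2 q : ℕ) : ℝ) ≤ Real.logb 2 q := by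
        have := Real.natLog_le_logb q 2
        exact_mod_cast this
      have h5 : Real.log q ≤ Real.log 2 + Real.log x := by
        rw [← Real.log_mul (by norm_num) (by
          have : 0 < x := by omega
          positivity)]
        refine Real.log_le_log (by exact_mod_cast hq0) ?_
        have : q ≤ 2 * x := by omega
        exact_mod_cast this
      have hl2 : 0.6931 < Real.log 2 := by
        have := Real.log_two_gt_d9
        linarith only [this]
      have h6 : Real.logb 2 q ≤ 1 + 1.5 * Real.log x := by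
        rw [Real.logb, div_le_iff₀ (by linarith only [hl2])]
        nlinarith only [hL, h5, hl2]
      linarith only [hL, h3, h4, h6]
    rw [sum_const, nsmul_eq_mul, mul_one_div, div_le_div_iff₀ hphi hQ']
    have h7 : (Q : ℝ) ≤ q.totient * (4 * Real.log x) := by
      refine le_trans ?_ h2
      exact_mod_cast hq.1.le
    calc (((S q).filter (fun a => Nat.Coprime a q)).card : ℝ) * Q
        ≤ H * (q.totient * (4 * Real.log x)) :=
          mul_le_mul hcard h7 hQ'.le hH0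
      _ = H * (4 * Real.log x) * q.totient := by ring
  refine (sum_le_sum h1).trans (le_of_eq ?_)
  rw [sum_const, Nat.card_Ioc, nsmul_eq_mul]
  have h8 : 2 * Q - Q = Q := by omega
  rw [h8]
  field_simp

private theorem gfinA_ev (K δ : ℝ) (hδ : 0 < δ) (k : ℕ) :
    ∀ᶠ x : ℕ in Filter.atTop, K * Real.log x ^ k ≤ (x : ℝ) ^ δ := by
  have hK : 0 < |K| + 1 := by positivity
  have h1 := (isLittleO_log_rpow_rpow_atTop (k : ℝ) hδ).def (c := 1 / (|K| + 1)) (by positivity)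
  have h2 := tendsto_natCast_atTop_atTop (R := ℝ) |>.eventually h1
  filter_upwards [h2] with x hx
  rw [Real.rpow_natCast, Real.norm_eq_abs, Real.norm_eq_abs,
    abs_of_nonneg (Real.rpow_nonneg (Nat.cast_nonneg x) δ), one_div, ← div_eq_inv_mul,
    le_div_iff₀ hK] at hx
  have h3 : K * Real.log x ^ k ≤ |K| * |Real.log x ^ k| := by
    rw [← abs_mul]
    exact le_abs_self _
  have h4 : 0 ≤ |Real.log (x : ℝ) ^ k| := abs_nonneg _
  linarith

private theorem gfinA_S (Q t : ℕ) (S : ℕ → Finset ℕ) :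
    (∑ q ∈ Ioc Q (2 * Q), ∑ a ∈ (S q).filter (fun a => Nat.Coprime a q),
      |∑ n ∈ Icc 1 t, gfinA_g q a n * Real.log n|) ≤
    (∑ q ∈ Ioc Q (2 * Q), ∑ a ∈ (S q).filter (fun a => Nat.Coprime a q),
      |psiA t q a - t / (q.totient : ℝ)|) +
    (∑ q ∈ Ioc Q (2 * Q), ∑ a ∈ (S q).filter (fun a => Nat.Coprime a q),
      gfinA_pa t q a) +
    (|(∑ n ∈ Icc 1 t, Lam n) - t| + gfinA_pp t) *
      ∑ q ∈ Ioc Q (2 * Q), ∑ _a ∈ (S q).filter (fun a => Nat.Coprime a q),
        (1 / (q.totient : ℝ)) := by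
  rw [mul_sum, ← sum_add_distrib, ← sum_add_distrib]
  refine sum_le_sum fun q _ => ?_
  rw [mul_sum, ← sum_add_distrib, ← sum_add_distrib]
  exact sum_le_sum fun a _ => gfinA_abs t q a

private theorem gfinA_main (x Q : ℕ) (S : ℕ → Finset ℕ) (hx : 2 ≤ x) (B : ℝ)
    (hB : ∀ t : ℕ, t ≤ x →
      (∑ q ∈ Ioc Q (2 * Q), ∑ a ∈ (S q).filter (fun a => Nat.Coprime a q),
        |∑ n ∈ Icc 1 t, gfinA_g q a n * Real.log n|) ≤ B) :
    (∑ q ∈ Ioc Q (2 * Q), ∑ a ∈ (S q).filter (fun a => Nat.Coprime a q),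
        |err x q (a : ZMod q)|) ≤ B * (1 / Real.log 2) := by
  have hlx : 0 < Real.log x := Real.log_pos (by exact_mod_cast (by omega : 1 < x))
  have hw : ∀ t ∈ Ico 2 x, 0 ≤ 1 / Real.log t - 1 / Real.log ((t + 1 : ℕ) : ℝ) := by
    intro t ht
    rw [mem_Ico] at ht
    have h1 : 0 < Real.log t := Real.log_pos (by exact_mod_cast (by omega : 1 < t))
    have h2 : Real.log t ≤ Real.log ((t + 1 : ℕ) : ℝ) :=
      Real.log_le_log (by exact_mod_cast (by omega : 0 < t)) (by exact_mod_cast Nat.le_succ t)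
    rw [sub_nonneg]
    exact one_div_le_one_div_of_le h1 h2
  have h1 : ∀ q a : ℕ, |err x q (a : ZMod q)| ≤
      |∑ n ∈ Icc 1 x, gfinA_g q a n * Real.log n| * (1 / Real.log x) +
      ∑ t ∈ Ico 2 x, |∑ n ∈ Icc 1 t, gfinA_g q a n * Real.log n| *
        (1 / Real.log t - 1 / Real.log ((t + 1 : ℕ) : ℝ)) := by
    intro q a
    rw [gfinA_err, gfinA_abel (gfinA_g q a) (by simp [gfinA_g, Nat.not_prime_one]) x hx]
    refine (abs_add_le _ _).trans (add_le_add ?_ ?_)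
    · rw [abs_div, abs_of_pos hlx, mul_one_div]
    · refine (abs_sum_le_sum_abs _ _).trans (sum_le_sum fun t ht => ?_)
      rw [abs_mul, abs_of_nonneg (hw t ht)]
  have h2 : (∑ q ∈ Ioc Q (2 * Q), ∑ a ∈ (S q).filter (fun a => Nat.Coprime a q),
        |err x q (a : ZMod q)|) ≤
      (∑ q ∈ Ioc Q (2 * Q), ∑ a ∈ (S q).filter (fun a => Nat.Coprime a q),
        |∑ n ∈ Icc 1 x, gfinA_g q a n * Real.log n|) * (1 / Real.log x) +
      ∑ t ∈ Ico 2 x, (∑ q ∈ Ioc Q (2 * Q),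
        ∑ a ∈ (S q).filter (fun a => Nat.Coprime a q),
        |∑ n ∈ Icc 1 t, gfinA_g q a n * Real.log n|) *
          (1 / Real.log t - 1 / Real.log ((t + 1 : ℕ) : ℝ)) := by
    refine (sum_le_sum fun q _ => sum_le_sum fun a _ => h1 q a).trans (le_of_eq ?_)
    simp only [sum_add_distrib, sum_mul]
    congr 1
    have e1 : ∀ q ∈ Ioc Q (2 * Q), (∑ a ∈ (S q).filter (fun a => Nat.Coprime a q),
        ∑ t ∈ Ico 2 x, |∑ n ∈ Icc 1 t, gfinA_g q a n * Real.log n| *
          (1 / Real.log t - 1 / Real.log ((t + 1 : ℕ) : ℝ))) =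
        ∑ t ∈ Ico 2 x, ∑ a ∈ (S q).filter (fun a => Nat.Coprime a q),
          |∑ n ∈ Icc 1 t, gfinA_g q a n * Real.log n| *
          (1 / Real.log t - 1 / Real.log ((t + 1 : ℕ) : ℝ)) := fun q _ => sum_comm
    rw [sum_congr rfl e1, sum_comm]
  refine h2.trans ?_
  rw [← gfinA_tele x hx, mul_add, mul_sum]
  refine add_le_add (mul_le_mul_of_nonneg_right (hB x le_rfl) (by positivity)) ?_
  refine sum_le_sum fun t ht => mul_le_mul_of_nonneg_right (hB t ?_) (hw t ht)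
  rw [mem_Ico] at ht
  omega

theorem gerr_of_psi_log (c : ℕ) :
    ∃ x0 : ℕ, ∀ x : ℕ, x0 ≤ x →
    ∀ Q : ℕ, ∀ H : ℝ, ∀ S : ℕ → Finset ℕ, 1 ≤ H → 1 ≤ Q → Q ≤ x →
      FamL Q H S → (Q : ℝ) ^ 2 * Real.log x ^ (2 * (c + 3)) ≤ H * x →
      (∀ t : ℕ, t ≤ x → |(∑ n ∈ Icc 1 t, Lam n) - t| ≤ x / Real.log x ^ (c + 5)) →
      (∀ t : ℕ, t ≤ x → ∑ q ∈ Ioc Q (2 * Q),
        ∑ a ∈ (S q).filter (fun a => Nat.Coprime a q),
          |psiA t q a - t / (q.totient : ℝ)| ≤ H * x / Real.log x ^ (c + 1)) →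
      ∑ q ∈ Ioc Q (2 * Q), ∑ a ∈ (S q).filter (fun a => Nat.Coprime a q),
        |err x q (a : ZMod q)| ≤ H * x / Real.log x ^ c := by
  have e3 := gfinA_ev 8 (1 / 2) (by norm_num) (c + 3)
  have e4 : ∀ᶠ x : ℕ in Filter.atTop, 10 ≤ Real.log x :=
    (Real.tendsto_log_atTop.comp tendsto_natCast_atTop_atTop).eventually_ge_atTop 10
  obtain ⟨x0, hx0⟩ := Filter.eventually_atTop.1 (e3.and e4)
  refine ⟨max x0 2, ?_⟩
  intro x hx Q H S hH1 hQ1 hQx' hFam hQH h0 h1
  have hS := hFam.1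
  obtain ⟨f3, hL⟩ := hx0 x ((le_max_left _ _).trans hx)
  have hx2 : 2 ≤ x := (le_max_right _ _).trans hx
  have hxp : (0 : ℝ) < x := by exact_mod_cast (by omega : 0 < x)
  have hx1 : (1 : ℝ) ≤ x := by exact_mod_cast (by omega : 1 ≤ x)
  set L := Real.log (x : ℝ) with hLdef
  have hLp : 0 < L := by linarith only [hL]
  have hHp : (0 : ℝ) < H := by linarith only [hH1]
  have hQ0 : (0 : ℝ) < Q := by exact_mod_cast hQ1
  have hD : 0 < L ^ (c + 1) := by positivity
  -- the estimates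
  have g1 : 2 * Real.sqrt x * L * Real.sqrt (Q * (2 * Q * H)) ≤ H * (x / L ^ (c + 1)) := by
    have h2 : Real.sqrt (Q * (2 * Q * H)) * L ^ (c + 3) ≤ 2 * H * Real.sqrt x := by
      have h3 : (Real.sqrt (Q * (2 * Q * H)) * L ^ (c + 3)) ^ 2 ≤ (2 * H * Real.sqrt x) ^ 2 := by
        rw [mul_pow, mul_pow, Real.sq_sqrt (by positivity), Real.sq_sqrt hxp.le, ← pow_mul, mul_comm (c + 3) 2]
        calc (Q : ℝ) * (2 * Q * H) * L ^ (2 * (c + 3)) = 2 * H * (Q ^ 2 * L ^ (2 * (c + 3))) := by ring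
          _ ≤ 2 * H * (H * x) := mul_le_mul_of_nonneg_left hQH (by positivity)
          _ ≤ (2 * H) ^ 2 * x := by
              have : 0 ≤ H * H * x := by positivity
              nlinarith only [this]
      exact (pow_le_pow_iff_left₀ (by positivity) (by positivity) (by norm_num : (2 : ℕ) ≠ 0)).1 h3
    rw [mul_div_assoc', le_div_iff₀ hD]
    have h4 : (4 : ℝ) ≤ L := by linarith only [hL]
    have h5 : 0 ≤ Real.sqrt x * (Real.sqrt (Q * (2 * Q * H)) * L ^ (c + 2)) := by positivity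
    calc 2 * Real.sqrt x * L * Real.sqrt (Q * (2 * Q * H)) * L ^ (c + 1)
        = (2 * (Real.sqrt x * (Real.sqrt (Q * (2 * Q * H)) * L ^ (c + 2)))) := by ring
      _ ≤ (L * (Real.sqrt x * (Real.sqrt (Q * (2 * Q * H)) * L ^ (c + 2)))) / 2 := by
          nlinarith only [h4, h5]
      _ = Real.sqrt x * (Real.sqrt (Q * (2 * Q * H)) * L ^ (c + 3)) / 2 := by ring
      _ ≤ Real.sqrt x * (2 * H * Real.sqrt x) / 2 := by gcongr
      _ = H * (Real.sqrt x * Real.sqrt x) := by ring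
      _ = H * x := by rw [Real.mul_self_sqrt hxp.le]
  have g3 : x / L ^ (c + 5) * (4 * L) ≤ x / L ^ (c + 1) := by
    have h2 : (4 : ℝ) ≤ L ^ 3 := by
      calc (4 : ℝ) ≤ 10 ^ 3 := by norm_num
        _ ≤ L ^ 3 := pow_le_pow_left₀ (by norm_num) hL 3
    rw [div_mul_eq_mul_div, div_le_div_iff₀ (by positivity) hD]
    calc x * (4 * L) * L ^ (c + 1) = x * L ^ (c + 2) * 4 := by ring
      _ ≤ x * L ^ (c + 2) * L ^ 3 := mul_le_mul_of_nonneg_left h2 (by positivity)
      _ = x * L ^ (c + 5) := by ring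
  have g4 : 2 * Real.sqrt x * L * (4 * L) ≤ x / L ^ (c + 1) := by
    rw [le_div_iff₀ hD]
    have h3 : Real.sqrt x * (x : ℝ) ^ (1 / 2 : ℝ) = x := by
      rw [← Real.sqrt_eq_rpow]
      exact Real.mul_self_sqrt hxp.le
    calc 2 * Real.sqrt x * L * (4 * L) * L ^ (c + 1) = Real.sqrt x * (8 * L ^ (c + 3)) := by ring
      _ ≤ Real.sqrt x * (x : ℝ) ^ (1 / 2 : ℝ) := mul_le_mul_of_nonneg_left f3 (by positivity)
      _ = x := h3
  have hB : ∀ t : ℕ, t ≤ x →
      (∑ q ∈ Ioc Q (2 * Q), ∑ a ∈ (S q).filter (fun a => Nat.Coprime a q),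
        |∑ n ∈ Icc 1 t, gfinA_g q a n * Real.log n|) ≤ 4 * (H * (x / L ^ (c + 1))) := by
    intro t ht
    refine (gfinA_S Q t S).trans ?_
    have k1 := h1 t ht
    have k2 := gfinA_pa_le x Q t H S hFam (by omega) ht
    have k3 := gfinA_phi x Q H S hHp.le hS (by linarith only [hL]) hQ1 hQx'
    have k4 := gfinA_pp_le t x ht (by omega)
    have k5 := h0 t ht
    have k6 : (|(∑ n ∈ Icc 1 t, Lam n) - t| + gfinA_pp t) *
        (∑ q ∈ Ioc Q (2 * Q), ∑ _a ∈ (S q).filter (fun a => Nat.Coprime a q),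
          (1 / (q.totient : ℝ))) ≤
        (x / L ^ (c + 5) + 2 * Real.sqrt x * L) * (H * (4 * L)) :=
      mul_le_mul (add_le_add k5 k4) k3
        (sum_nonneg fun q _ => sum_nonneg fun a _ => by positivity) (by positivity)
    have k7 : (x / L ^ (c + 5) + 2 * Real.sqrt x * L) * (H * (4 * L)) =
        H * (x / L ^ (c + 5) * (4 * L)) + H * (2 * Real.sqrt x * L * (4 * L)) := by ring
    have k8 : H * (x / L ^ (c + 5) * (4 * L)) ≤ H * (x / L ^ (c + 1)) :=
      mul_le_mul_of_nonneg_left g3 hHp.le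
    have k9 : H * (2 * Real.sqrt x * L * (4 * L)) ≤ H * (x / L ^ (c + 1)) :=
      mul_le_mul_of_nonneg_left g4 hHp.le
    have k12 : H * x / L ^ (c + 1) = H * (x / L ^ (c + 1)) := by ring
    rw [k12] at k1
    linarith only [g1, k1, k2, k6, k8, k9]
  refine (gfinA_main x Q S hx2 _ hB).trans ?_
  have hl2 : 0.6931 < Real.log 2 := by
    have := Real.log_two_gt_d9
    linarith only [this]
  have hl2' : 0 < Real.log 2 := by linarith only [hl2]
  rw [mul_one_div, div_le_div_iff₀ hl2' (by positivity)]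
  have m1 : 4 * (H * (x / L ^ (c + 1))) * L ^ c = 4 * (H * x) / L := by
    rw [pow_succ]
    field_simp
  rw [m1, div_le_iff₀ hLp]
  have m2 : (4 : ℝ) ≤ Real.log 2 * L := by nlinarith only [hL, hl2]
  have m3 : 0 ≤ (H : ℝ) * x := by positivity
  nlinarith only [m2, m3]



/-- the exponent of `log x` -/
def blD (c : ℕ) : ℕ := rgD (c + 1)

/-- one dyadic block -/
theorem gblock_log (c : ℕ) :
    ∃ x0 : ℕ, ∀ x : ℕ, x0 ≤ x → ∀ Q : ℕ, ∀ H : ℝ, ∀ S : ℕ → Finset ℕ, 1 ≤ H → 1 ≤ Q →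
      (Q : ℝ) * Real.log x ^ (blD c) ≤ x → FamL Q H S → (Q : ℝ) ^ 2 * Real.log x ^ (blD c) ≤ H * x →
      ∑ q ∈ Ioc Q (2 * Q), ∑ a ∈ (S q).filter (fun a => Nat.Coprime a q),
        |err x q (a : ZMod q)| ≤ H * x / Real.log x ^ c := by
  obtain ⟨x1, hx1⟩ := gtwo_range_log (c + 1)
  obtain ⟨x3, hx3⟩ := gerr_of_psi_log c
  obtain ⟨x4, hx4⟩ := pnt' (c + 5)
  obtain ⟨x5, hx5⟩ := log_ge 1
  refine ⟨max (max x1 x5) (max x3 x4), ?_⟩
  intro x hx Q H S hH hQ1 hQ hFam hQH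
  have e1 : x1 ≤ x := le_trans (le_trans (le_max_left _ _) (le_max_left _ _)) hx
  have e5 : x5 ≤ x := le_trans (le_trans (le_max_right _ _) (le_max_left _ _)) hx
  have e3 : x3 ≤ x := le_trans (le_trans (le_max_left _ _) (le_max_right _ _)) hx
  have e4 : x4 ≤ x := le_trans (le_trans (le_max_right _ _) (le_max_right _ _)) hx
  have hL1 : 1 ≤ Real.log x := hx5 x e5
  have h1 : 1 ≤ Real.log x ^ (blD c) := one_le_pow₀ hL1
  have hQx : Q ≤ x := by
    have h2 : (Q : ℝ) ≤ x := by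
      refine le_trans ?_ hQ
      have h3 : (0 : ℝ) ≤ Q := Nat.cast_nonneg _
      nlinarith only [h1, h3]
    exact_mod_cast h2
  have h2 : (Q : ℝ) ^ 2 * Real.log x ^ (2 * (c + 3)) ≤ H * x := by
    refine le_trans (mul_le_mul_of_nonneg_left (pow_le_pow_right₀ hL1 ?_) (sq_nonneg _)) hQH
    unfold blD rgD omD
    omega
  exact hx3 x e3 Q H S hH hQ1 hQx hFam h2 (fun t ht => hx4 x e4 t ht)
    (fun t ht => hx1 x e1 t Q H S ht hQ1 hQ hH hFam hQH)

end Pool.Agent.H35.FL
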