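import Pool.Agent.H35.FX.Me
import Pool.Agent.H35.FL.Bl

/-!
# FL Me: one dyadic block, with the maximum over the endpoint, log powers
-/

set_option autoImplicit false

namespace Pool.Agent.H35.FL

open Finset
open Pool.Agent.H91.EHA (err log_ge)
open Pool.Agent.H80.KF (ME grid phi_inv_sum)
open Pool.Agent.H35.FX (coll err_zero ME_nonneg le_ME)

/-- the exponent of `log x` -/
def meD (c : ℕ) : ℕ := blD (2 * c + 8) + (c + 5)

/-- the passage from the endpoints `j x / G` to all endpoints -/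
private theorem me_grid (x G M : ℕ) (hx : 3 ≤ x) (hG : 1 ≤ G) (hMx : 2 * M ≤ x) {H : ℝ} (hH : 0 ≤ H)
    (T : ℕ → Finset ℕ) (hT : ∀ q ∈ Ioc M (2 * M), ((T q).card : ℝ) ≤ H) :
    ∑ q ∈ Ioc M (2 * M), ∑ a ∈ T q, ME x q (a : ZMod q) ≤
      ∑ j ∈ range (G + 1), ∑ q ∈ Ioc M (2 * M), ∑ a ∈ T q, |err (j * x / G) q (a : ZMod q)| +
        H * (((x : ℝ) / G + 1) * (4 * Real.log x ^ 2)) := by
  have hx1 : 1 ≤ x := by omega
  have hSx : Ioc M (2 * M) ⊆ Icc 1 x := by
    intro q hq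
    rw [mem_Ioc] at hq
    rw [mem_Icc]
    omega
  have h4 : 0 ≤ (x : ℝ) / G + 1 := by positivity
  have h1 : ∀ q ∈ Ioc M (2 * M), ∑ a ∈ T q, ME x q (a : ZMod q) ≤
      ∑ j ∈ range (G + 1), ∑ a ∈ T q, |err (j * x / G) q (a : ZMod q)| +
        H * (((x : ℝ) / G + 1) * (1 / (Nat.totient q : ℝ))) := by
    intro q hq
    have hq1 : 1 ≤ q := (mem_Icc.1 (hSx hq)).1
    have e1 : ∀ a ∈ T q, ME x q (a : ZMod q) ≤
        ∑ j ∈ range (G + 1), |err (j * x / G) q (a : ZMod q)| +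
          ((x : ℝ) / G + 1) * (1 / (Nat.totient q : ℝ)) := by
      intro a _
      unfold ME
      apply Finset.sup'_le
      intro y hy
      rw [mem_range] at hy
      have h2 := grid x G q hx1 hG hq1 (a : ZMod q) y (by omega)
      rw [mul_one_div]
      exact h2
    refine (sum_le_sum e1).trans ?_
    rw [sum_add_distrib, sum_comm, sum_const, nsmul_eq_mul]
    have e3 : 0 ≤ ((x : ℝ) / G + 1) * (1 / (Nat.totient q : ℝ)) := by positivity
    have e4 := mul_le_mul_of_nonneg_right (hT q hq) e3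
    linarith only [e4]
  refine (sum_le_sum h1).trans ?_
  rw [sum_add_distrib, sum_comm, ← mul_sum, ← mul_sum]
  have h3 : ∑ q ∈ Ioc M (2 * M), 1 / (Nat.totient q : ℝ) ≤ 4 * Real.log x ^ 2 :=
    (sum_le_sum_of_subset_of_nonneg hSx (fun q _ _ => by positivity)).trans (phi_inv_sum x hx)
  have h5 : H * (((x : ℝ) / G + 1) * ∑ q ∈ Ioc M (2 * M), 1 / (Nat.totient q : ℝ)) ≤
      H * (((x : ℝ) / G + 1) * (4 * Real.log x ^ 2)) :=
    mul_le_mul_of_nonneg_left (mul_le_mul_of_nonneg_left h3 h4) hH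
  linarith only [h5]


/-- large `x` -/
private theorem mel_ev (c : ℕ) (K : ℝ) : ∃ x0 : ℕ, ∀ x : ℕ, x0 ≤ x → K ≤ Real.log x ∧ 3 ≤ x ∧
    4 * Real.log x ^ (c + 4) * (x : ℝ) ^ (1 / 2 : ℝ) ≤ x := by
  have h1 : ∀ᶠ x : ℝ in Filter.atTop, K ≤ Real.log x :=
    Real.tendsto_log_atTop.eventually_ge_atTop _
  have h2 := (isLittleO_log_rpow_rpow_atTop (((c + 4 : ℕ) : ℝ))
    (by norm_num : (0 : ℝ) < 1 / 2)).bound (by norm_num : (0 : ℝ) < 1 / 4)
  have h3 := tendsto_natCast_atTop_atTop.eventually (h1.and h2)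
  obtain ⟨x0, hx0⟩ := Filter.eventually_atTop.1 h3
  refine ⟨max x0 3, fun x hx => ?_⟩
  obtain ⟨h4, h5⟩ := hx0 x ((le_max_left _ _).trans hx)
  have hx3 : 3 ≤ x := (le_max_right _ _).trans hx
  refine ⟨h4, hx3, ?_⟩
  have hxr : (0 : ℝ) < x := by
    have : 0 < x := by omega
    exact_mod_cast this
  have hx1 : (1 : ℝ) ≤ x := by
    have : 1 ≤ x := by omega
    exact_mod_cast this
  have hL : 0 ≤ Real.log x := Real.log_nonneg hx1
  rw [Real.rpow_natCast] at h5
  have h6 : (0 : ℝ) ≤ Real.log x ^ (c + 4) := by positivity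
  have h7 : (0 : ℝ) ≤ (x : ℝ) ^ (1 / 2 : ℝ) := by positivity
  rw [Real.norm_of_nonneg h6, Real.norm_of_nonneg h7] at h5
  calc 4 * Real.log x ^ (c + 4) * (x : ℝ) ^ (1 / 2 : ℝ) ≤ 4 * (1 / 4 * (x : ℝ) ^ (1 / 2 : ℝ)) * (x : ℝ) ^ (1 / 2 : ℝ) :=
        mul_le_mul_of_nonneg_right (mul_le_mul_of_nonneg_left h5 (by norm_num)) h7
    _ = (x : ℝ) ^ (1 / 2 : ℝ) * (x : ℝ) ^ (1 / 2 : ℝ) := by ring
    _ = x := by rw [← Real.rpow_add hxr]; norm_num

/-- One dyadic block. -/
theorem me_block_log (c : ℕ) :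
    ∃ x0 : ℕ, ∀ x : ℕ, x0 ≤ x → ∀ Q : ℕ, ∀ H : ℝ, ∀ S : ℕ → Finset ℕ, 1 ≤ H → 1 ≤ Q →
      (Q : ℝ) * Real.log x ^ (meD c) ≤ x → (∀ q ∈ Ioc Q (2 * Q), ((S q).card : ℝ) ≤ H) →
      (∑ q ∈ Ioc Q (2 * Q), (coll q (S q) : ℝ) ≤ 2 * Q * H) →
      (Q : ℝ) ^ 2 * Real.log x ^ (meD c) ≤ H * x →
      ∑ q ∈ Ioc Q (2 * Q), ∑ a ∈ (S q).filter (fun a => Nat.Coprime a q), ME x q (a : ZMod q) ≤
        H * x / Real.log x ^ c := by
  obtain ⟨c', hc'⟩ : ∃ c' : ℕ, c' = 2 * c + 8 := ⟨_, rfl⟩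
  obtain ⟨y0, hy0⟩ := gblock_log c'
  obtain ⟨s, hs⟩ : ∃ s : ℝ, s = 1 / 2 := ⟨_, rfl⟩
  have hs0 : 0 < s := by rw [hs]; norm_num
  -- the constant
  obtain ⟨K, hK1, hK2, hK3⟩ : ∃ K : ℝ, 4 / s ^ c' ≤ K ∧ 64 ≤ K ∧ Real.log (y0 + 1) / s ≤ K :=
    ⟨max (4 / s ^ c') (max 64 (Real.log (y0 + 1) / s)), le_max_left _ _,
      (le_max_left _ _).trans (le_max_right _ _), (le_max_right _ _).trans (le_max_right _ _)⟩
  obtain ⟨x1, hx1⟩ := mel_ev c K
  refine ⟨x1, fun x hx Q H S hH hQ1 hQ hS hcoll hQH => ?_⟩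
  obtain ⟨hLK, hx3, hLx⟩ := hx1 x hx
  have hL64 : 64 ≤ Real.log x := hK2.trans hLK
  have hL4 : 4 ≤ Real.log x := by linarith
  have hxr : (0 : ℝ) < x := by
    have : 0 < x := by omega
    exact_mod_cast this
  have hx1r : (1 : ℝ) ≤ x := by
    have : 1 ≤ x := by omega
    exact_mod_cast this
  have hH0 : 0 ≤ H := by linarith
  set L := Real.log x with hLdef
  have hL0 : 0 < L := by linarith only [hL4]
  have hL1 : 1 ≤ L := by linarith only [hL4]
  have hLp0 : 0 < L ^ (c + 4) := by positivity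
  have hLp1 : 1 ≤ L ^ (c + 4) := one_le_pow₀ (by linarith only [hL4])
  have hxs : 4 * L ^ (c + 4) * (x : ℝ) ^ s ≤ x := by
    rw [hs]
    exact hLx
  set G := ⌈L ^ (c + 4)⌉₊ with hGdef
  have hG1 : L ^ (c + 4) ≤ G := Nat.le_ceil _
  have hG2 : (G : ℝ) ≤ 2 * L ^ (c + 4) := by
    have h1 := (Nat.ceil_lt_add_one hLp0.le).le
    rw [← hGdef] at h1
    linarith
  have hGpos : 1 ≤ G := by
    have h1 : (1 : ℝ) ≤ G := hLp1.trans hG1
    exact_mod_cast h1
  have hGr : (0 : ℝ) < G := by exact_mod_cast hGpos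
  have hxs1 : (1 : ℝ) ≤ (x : ℝ) ^ s := Real.one_le_rpow hx1r hs0.le
  -- the bounds at the endpoints `≥ x / (4 L^(c+4))`
  have hexp : ∀ X : ℝ, 0 ≤ X → X * L ^ (meD c) ≤ x → X * L ^ (blD c') * (4 * L ^ (c + 4)) ≤ x := by
    intro X hX h
    refine le_trans ?_ h
    unfold meD
    rw [← hc', pow_add L (blD c')]
    have h1 : 4 * L ^ (c + 4) ≤ L ^ (c + 5) := by
      rw [pow_succ L (c + 4)]
      nlinarith only [hL4, hLp0]
    calc X * L ^ (blD c') * (4 * L ^ (c + 4)) ≤ X * L ^ (blD c') * L ^ (c + 5) :=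
          mul_le_mul_of_nonneg_left h1 (by positivity)
      _ = X * (L ^ (blD c') * L ^ (c + 5)) := by ring
  have h2Q : 2 * Q ≤ x := by
    have h1 : (2 : ℝ) * Q ≤ x := by
      have h2 := hexp Q (Nat.cast_nonneg _) hQ
      have h3 : 1 ≤ L ^ (blD c') := one_le_pow₀ hL1
      have h4 : (0 : ℝ) ≤ Q := Nat.cast_nonneg _
      refine le_trans ?_ h2
      calc (2 : ℝ) * Q ≤ Q * 1 * (4 * 1) := by linarith
        _ ≤ Q * L ^ (blD c') * (4 * L ^ (c + 4)) := by gcongr
    exact_mod_cast h1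
  have hmain := me_grid x G Q hx3 hGpos h2Q hH0 (fun q => (S q).filter (fun a => Nat.Coprime a q))
    (fun q hq => le_trans (by exact_mod_cast card_le_card (filter_subset _ _)) (hS q hq))
  refine hmain.trans ?_
  -- each endpoint
  have hpt : ∀ j ∈ range (G + 1), ∑ q ∈ Ioc Q (2 * Q), ∑ a ∈ (S q).filter (fun a => Nat.Coprime a q),
      |err (j * x / G) q (a : ZMod q)| ≤ H * x / (s ^ c' * L ^ c') := by
    intro j hj
    rcases Nat.eq_zero_or_pos j with hj0 | hj0
    · rw [hj0]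
      have h1 : ∑ q ∈ Ioc Q (2 * Q), ∑ a ∈ (S q).filter (fun a => Nat.Coprime a q),
          |err (0 * x / G) q (a : ZMod q)| = 0 := by
        refine sum_eq_zero fun q _ => sum_eq_zero fun a _ => ?_
        rw [zero_mul, Nat.zero_div, err_zero, abs_zero]
      rw [h1]
      positivity
    · set y := j * x / G with hydef
      have hyx : y ≤ x := by
        rw [mem_range] at hj
        rw [hydef]
        apply Nat.div_le_of_le_mul
        exact Nat.mul_le_mul_right x (by omega)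
      have hy2 : (x : ℝ) ≤ y * (4 * L ^ (c + 4)) := by
        have h1 : x / G ≤ y := by
          rw [hydef]
          exact Nat.div_le_div_right (Nat.le_mul_of_pos_left x hj0)
        have h2 : (x : ℝ) / G - 1 ≤ ((x / G : ℕ) : ℝ) := by
          have h3 : (x : ℝ) / G < ((x / G : ℕ) : ℝ) + 1 := by
            rw [div_lt_iff₀ hGr]
            have h4 : x < (x / G + 1) * G := by
              have := Nat.lt_div_mul_add (a := x) (b := G) (by omega)
              rw [Nat.add_mul, Nat.one_mul]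
              exact this
            exact_mod_cast h4
          linarith
        have h3 : (x : ℝ) / (2 * L ^ (c + 4)) ≤ (x : ℝ) / G := by
          exact div_le_div_of_nonneg_left hxr.le hGr hG2
        have h5 : 2 ≤ (x : ℝ) / (2 * L ^ (c + 4)) := by
          rw [le_div_iff₀ (by positivity)]
          calc 2 * (2 * L ^ (c + 4)) = 4 * L ^ (c + 4) * 1 := by ring
            _ ≤ 4 * L ^ (c + 4) * (x : ℝ) ^ s := by gcongr
            _ ≤ x := hxs
        have h4 : ((x / G : ℕ) : ℝ) ≤ y := by exact_mod_cast h1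
        have h6 : (x : ℝ) / (2 * L ^ (c + 4)) / 2 ≤ y := by linarith
        rw [div_div, div_le_iff₀ (by positivity)] at h6
        linarith
      have hy1 : (x : ℝ) ^ s ≤ y := by
        have h1 : 4 * L ^ (c + 4) * (x : ℝ) ^ s ≤ y * (4 * L ^ (c + 4)) := hxs.trans hy2
        have h2 : 0 < 4 * L ^ (c + 4) := by positivity
        exact le_of_mul_le_mul_left (by linarith) h2
      have hyr : (1 : ℝ) ≤ y := hxs1.trans hy1
      have hyr0 : (0 : ℝ) < y := by linarith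
      have hyx' : (y : ℝ) ≤ x := by exact_mod_cast hyx
      have hlogy : s * L ≤ Real.log y := by
        have h1 := Real.log_le_log (by positivity) hy1
        rwa [Real.log_rpow hxr] at h1
      have hlogy0 : 0 ≤ Real.log y := Real.log_nonneg hyr
      have hlogyL : Real.log y ≤ L := Real.log_le_log hyr0 hyx'
      have hyy0 : y0 ≤ y := by
        have h1 : Real.log (y0 + 1) ≤ s * L := by
          have h2 : Real.log (y0 + 1) / s ≤ L := by linarith
          rw [div_le_iff₀ hs0] at h2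
          linarith
        have h2 := h1.trans hlogy
        rw [Real.log_le_log_iff (by positivity) hyr0] at h2
        have h3 : ((y0 + 1 : ℕ) : ℝ) ≤ y := by push_cast; exact h2
        have h4 : y0 + 1 ≤ y := by exact_mod_cast h3
        omega
      have hkey : ∀ X : ℝ, 0 ≤ X → X * L ^ (meD c) ≤ x → X * Real.log y ^ (blD c') ≤ y := by
        intro X hX h
        have h1 := (hexp X hX h).trans hy2
        have h2 : 0 < 4 * L ^ (c + 4) := by positivity
        have h3 : X * L ^ (blD c') ≤ y := le_of_mul_le_mul_right h1 h2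
        refine le_trans ?_ h3
        exact mul_le_mul_of_nonneg_left (pow_le_pow_left₀ hlogy0 hlogyL _) hX
      have hQy := hkey Q (Nat.cast_nonneg _) hQ
      have hQHy : (Q : ℝ) ^ 2 * Real.log y ^ (blD c') ≤ H * y := by
        have hHr : 0 < H := by linarith
        have h1 : (Q : ℝ) ^ 2 / H * L ^ (meD c) ≤ x := by
          rw [div_mul_eq_mul_div, div_le_iff₀ hHr]
          linarith
        have h2 := hkey ((Q : ℝ) ^ 2 / H) (by positivity) h1
        rw [div_mul_eq_mul_div, div_le_iff₀ hHr] at h2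
        linarith
      have hFam : FamL Q H S := ⟨hS, hcoll⟩
      have h1 := hy0 y hyy0 Q H S hH hQ1 hQy hFam hQHy
      refine h1.trans ?_
      have h2 : s ^ c' * L ^ c' ≤ Real.log y ^ c' := by
        rw [← mul_pow]
        exact pow_le_pow_left₀ (by positivity) hlogy c'
      exact div_le_div₀ (by positivity) (mul_le_mul_of_nonneg_left hyx' hH0) (by positivity) h2
  have hsum := sum_le_sum hpt
  rw [sum_const, card_range, nsmul_eq_mul] at hsum
  -- final computation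
  have hA : ((G + 1 : ℕ) : ℝ) * (H * x / (s ^ c' * L ^ c')) ≤ H * x / L ^ c / 2 := by
    have h1 : ((G + 1 : ℕ) : ℝ) ≤ 4 * L ^ (c + 4) := by
      push_cast
      linarith
    have h2 : 0 ≤ H * x / (s ^ c' * L ^ c') := by positivity
    have h3 : L ^ c' = L ^ (c + 4) * (L ^ c * L ^ 4) := by
      rw [hc', ← pow_add, ← pow_add]
      congr 1
      omega
    have h4 : 4 / s ^ c' ≤ L := hK1.trans hLK
    have h5 : 4 * L ^ (c + 4) * (H * x / (s ^ c' * L ^ c')) = (4 / s ^ c') * (H * x / L ^ c) / L ^ 4 := by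
      rw [h3]
      field_simp
    have h6 : 0 ≤ H * x / L ^ c := by positivity
    have h7 : (4 / s ^ c') * (H * x / L ^ c) / L ^ 4 ≤ L * (H * x / L ^ c) / L ^ 4 := by
      gcongr
    have h8 : L * (H * x / L ^ c) / L ^ 4 ≤ H * x / L ^ c / 2 := by
      rw [div_le_iff₀ (by positivity)]
      have h9 : 2 * L ≤ L ^ 4 := by
        have h10 : (64 : ℝ) ≤ L ^ 3 := by
          calc (64 : ℝ) = 4 ^ 3 := by norm_num
            _ ≤ L ^ 3 := pow_le_pow_left₀ (by norm_num) hL4 3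
        calc 2 * L ≤ 64 * L := by linarith
          _ ≤ L ^ 3 * L := mul_le_mul_of_nonneg_right h10 hL0.le
          _ = L ^ 4 := by ring
      calc L * (H * x / L ^ c) = H * x / L ^ c / 2 * (2 * L) := by ring
        _ ≤ H * x / L ^ c / 2 * L ^ 4 := mul_le_mul_of_nonneg_left h9 (by positivity)
    calc ((G + 1 : ℕ) : ℝ) * (H * x / (s ^ c' * L ^ c')) ≤ 4 * L ^ (c + 4) * (H * x / (s ^ c' * L ^ c')) :=
          mul_le_mul_of_nonneg_right h1 h2
      _ = (4 / s ^ c') * (H * x / L ^ c) / L ^ 4 := h5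
      _ ≤ _ := h7.trans h8
  have hB : H * (((x : ℝ) / G + 1) * (4 * L ^ 2)) ≤ H * x / L ^ c / 2 := by
    have h1 : (x : ℝ) / G ≤ x / L ^ (c + 4) := div_le_div_of_nonneg_left hxr.le hLp0 hG1
    have h2 : (1 : ℝ) ≤ x / L ^ (c + 4) := by
      rw [le_div_iff₀ hLp0, one_mul]
      nlinarith
    have h3 : (x : ℝ) / G + 1 ≤ 2 * (x / L ^ (c + 4)) := by linarith
    have h4 : H * (((x : ℝ) / G + 1) * (4 * L ^ 2)) ≤ H * (2 * (x / L ^ (c + 4)) * (4 * L ^ 2)) := by
      gcongr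
    have h5 : H * (2 * (x / L ^ (c + 4)) * (4 * L ^ 2)) = (H * x / L ^ c / 2) * (16 / L ^ 2) := by
      rw [pow_add]
      field_simp
      ring
    have h6 : 16 / L ^ 2 ≤ 1 := by
      rw [div_le_one (by positivity)]
      calc (16 : ℝ) = 4 ^ 2 := by norm_num
        _ ≤ L ^ 2 := pow_le_pow_left₀ (by norm_num) hL4 2
    have h7 : 0 ≤ H * x / L ^ c / 2 := by positivity
    rw [h5] at h4
    exact h4.trans (mul_le_of_le_one_right h7 h6)
  have hfin : H * x / L ^ c / 2 + H * x / L ^ c / 2 = H * x / L ^ c := by ring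
  linarith only [hsum, hA, hB, hfin]

end Pool.Agent.H35.FL
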