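import Pool.Agent.H35.FX.Top
import Pool.Agent.H35.FL.Fn

/-!
# FL Top: the exceptional classes, log powers

As FX.Top, with `x^(1-ε)` replaced by any `T ≤ x/(log x)^D`.
-/

set_option autoImplicit false

namespace Pool.Agent.H35.FL

open Finset
open Pool.Agent.H91.EHA (err err_one dyadic_cover)
open Pool.Agent.H80.KF (ME grid phi_inv_sum)
open Pool.Agent.H35.FX (coll err_zero ME_nonneg le_ME grp TopK exists_topK)

private theorem top_ev (K : ℝ) : ∃ x0 : ℕ, ∀ x : ℕ, x0 ≤ x → K ≤ Real.log x ∧ 3 ≤ x := by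
  have h1 : ∀ᶠ x : ℝ in Filter.atTop, K ≤ Real.log x := Real.tendsto_log_atTop.eventually_ge_atTop _
  obtain ⟨x0, hx0⟩ := Filter.eventually_atTop.1 (tendsto_natCast_atTop_atTop.eventually h1)
  exact ⟨max x0 3, fun x hx => ⟨hx0 x ((le_max_left _ _).trans hx), (le_max_right _ _).trans hx⟩⟩

private theorem cop_unit (q : ℕ) (a : ℤ) (h : IsCoprime a (q : ℤ)) : IsUnit ((a : ℤ) : ZMod q) := by
  obtain ⟨u, v, huv⟩ := h
  have h1 : ((u : ℤ) : ZMod q) * ((a : ℤ) : ZMod q) = 1 := by
    have h2 := congrArg (fun z : ℤ => (z : ZMod q)) huv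
    push_cast at h2
    rw [ZMod.natCast_self, mul_zero, add_zero] at h2
    exact h2
  exact IsUnit.of_mul_eq_one_right _ h1

/-- The sum over a residue function which avoids the classes with the largest errors. -/
theorem top_sets_log (c : ℕ) : ∃ x0 : ℕ, ∀ x : ℕ, x0 ≤ x → ∀ (T : ℝ) (M : ℕ), 0 < T → T * Real.log x ^ (meD (c + 3)) ≤ x →
    (M : ℝ) ≤ T → ∀ B : (q : ℕ) → Finset (ZMod q),
    (∀ q, TopK x q ⌊(q : ℝ) ^ 2 * T⁻¹⌋₊ (B q)) → ∀ r : ℕ → ℤ, (∀ q : ℕ, 1 ≤ q → q ≤ M → IsCoprime (r q) (q : ℤ) → ((r q : ℤ) : ZMod q) ∉ B q) →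
    EML M x r ≤ x / Real.log x ^ c := by
  classical
  obtain ⟨x1, hx1⟩ := me_block_log (c + 3)
  obtain ⟨x2, hx2⟩ := top_ev 4
  refine ⟨max x1 x2, fun x hx T M hT0 hTx hMT B hB r hr => ?_⟩
  have hb := hx1 x ((le_max_left _ _).trans hx)
  obtain ⟨hL4, hx3⟩ := hx2 x ((le_max_right _ _).trans hx)
  set L := Real.log x with hLdef
  have hL0 : 0 < L := by linarith
  have hx1' : 1 ≤ x := by omega
  have hxr : (0 : ℝ) < x := by exact_mod_cast hx1'
  have hL1 : 1 ≤ L := by linarith
  have hDpos : 0 < L ^ (meD (c + 3)) := by positivity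
  have hTx' : T ≤ x := by
    refine le_trans ?_ hTx
    have h1 : 1 ≤ L ^ (meD (c + 3)) := one_le_pow₀ hL1
    nlinarith
  have hMx : M ≤ x := by
    have h1 : (M : ℝ) ≤ x := hMT.trans hTx'
    exact_mod_cast h1
  set J : ℕ := Nat.log 2 x + 1 with hJ
  have hMJ : M < 2 ^ J := lt_of_le_of_lt hMx (Nat.lt_pow_succ_log_self (by norm_num) x)
  have hJL : (J : ℝ) ≤ L ^ 2 := by
    have h1 : ((Nat.log 2 x : ℕ) : ℝ) * Real.log 2 ≤ L := by
      have h2 : (2 : ℝ) ^ (Nat.log 2 x) ≤ x := by
        exact_mod_cast Nat.pow_log_le_self 2 (by omega : x ≠ 0)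
      have h3 := Real.log_le_log (by positivity) h2
      rwa [Real.log_pow] at h3
    have h2 := Real.log_two_gt_d9
    have h3 : ((Nat.log 2 x : ℕ) : ℝ) ≤ 2 * L := by
      have h4 : (0 : ℝ) ≤ ((Nat.log 2 x : ℕ) : ℝ) := by positivity
      nlinarith
    rw [hJ]
    push_cast
    nlinarith
  set f : ℕ → ℝ := fun q => if q ≤ M ∧ IsCoprime (r q) (q : ℤ) then ME x q ((r q : ℤ) : ZMod q) else 0 with hf
  have hf0 : ∀ q, 0 ≤ f q := by
    intro q
    rw [hf]
    show 0 ≤ if q ≤ M ∧ IsCoprime (r q) (q : ℤ) then ME x q ((r q : ℤ) : ZMod q) else 0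
    split_ifs
    · exact ME_nonneg _ _ _
    · exact le_rfl
  have hEMF : EML M x r = ∑ q ∈ (Icc 1 M).filter (fun _ => True), f q := by
    unfold EML
    rw [filter_true_of_mem (fun _ _ => trivial), sum_filter]
    refine sum_congr rfl fun q hq => ?_
    rw [mem_Icc] at hq
    rw [hf]
    show _ = if q ≤ M ∧ IsCoprime (r q) (q : ℤ) then ME x q ((r q : ℤ) : ZMod q) else 0
    by_cases h1 : IsCoprime (r q) (q : ℤ)
    · rw [if_pos h1, if_pos ⟨hq.2, h1⟩]
    · rw [if_neg h1, if_neg (fun h2 => h1 h2.2)]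
  have hf1 : f 1 = 0 := by
    rw [hf]
    show (if 1 ≤ M ∧ IsCoprime (r 1) ((1 : ℕ) : ℤ) then ME x 1 ((r 1 : ℤ) : ZMod 1) else 0) = 0
    split_ifs
    · unfold ME
      apply le_antisymm
      · apply Finset.sup'_le
        intro y _
        rw [err_one, abs_zero]
      · exact ME_nonneg x 1 _
    · rfl
  rw [hEMF]
  have hdy := dyadic_cover f hf0 M J hMJ (fun _ => True) hf1 (2 * x / L ^ (c + 3)) (by positivity) (by
      intro j _ q hqM _ hjq _
      set Q := 2 ^ j with hQdef
      have hQ1 : 1 ≤ Q := Nat.one_le_two_pow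
      have hQM : (Q : ℝ) ≤ M := by exact_mod_cast (hjq.le.trans hqM)
      have hQr : (Q : ℝ) * L ^ (meD (c + 3)) ≤ x :=
        (mul_le_mul_of_nonneg_right (hQM.trans hMT) hDpos.le).trans hTx
      set H : ℝ := max 1 ((Q : ℝ) ^ 2 * T⁻¹) with hH
      have hH1 : 1 ≤ H := le_max_left _ _
      have hQH : (Q : ℝ) ^ 2 * L ^ (meD (c + 3)) ≤ H * x := by
        have h1 : (Q : ℝ) ^ 2 * T⁻¹ * T ≤ H * T :=
          mul_le_mul_of_nonneg_right (le_max_right _ _) hT0.le
        rw [mul_assoc, inv_mul_cancel₀ hT0.ne', mul_one] at h1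
        calc (Q : ℝ) ^ 2 * L ^ (meD (c + 3)) ≤ H * T * L ^ (meD (c + 3)) := mul_le_mul_of_nonneg_right h1 hDpos.le
          _ = H * (T * L ^ (meD (c + 3))) := by ring
          _ ≤ H * x := mul_le_mul_of_nonneg_left hTx (by linarith)
      set k := ⌊H⌋₊ with hk
      have hk1 : 1 ≤ k := by
        rw [hk, Nat.one_le_floor_iff]
        exact hH1
      have hkH : (k : ℝ) ≤ H := Nat.floor_le (by linarith)
      have hHk : H ≤ 2 * k := by
        have h1 := Nat.lt_floor_add_one H
        rw [← hk] at h1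
        have h2 : (1 : ℝ) ≤ k := by exact_mod_cast hk1
        linarith
      have hkr : (0 : ℝ) < k := by exact_mod_cast hk1
      -- the sets of classes
      have hT : ∀ q : ℕ, ∃ T : Finset (ZMod q), (T.card : ℝ) ≤ H ∧ (q ∈ Ioc Q (2 * Q) → (∀ t ∈ T, IsUnit t) ∧
          k * f q ≤ ∑ t ∈ T, ME x q t) := by
        intro q
        by_cases hq : q ∈ Ioc Q (2 * Q) ∧ q ≤ M ∧ IsCoprime (r q) (q : ℤ)
        · obtain ⟨hq1, hq2, hq3⟩ := hq
          rw [mem_Ioc] at hq1
          have hq0 : 1 ≤ q := by omega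
          have hkq : k ≤ ⌊(q : ℝ) ^ 2 * T⁻¹⌋₊ + 1 := by
            by_cases h1 : (Q : ℝ) ^ 2 * T⁻¹ ≤ 1
            · have h2 : H = 1 := by rw [hH, max_eq_left h1]
              rw [hk, h2, Nat.floor_one]
              omega
            · push Not at h1
              have h2 : H = (Q : ℝ) ^ 2 * T⁻¹ := by rw [hH, max_eq_right h1.le]
              have h3 : k ≤ ⌊(q : ℝ) ^ 2 * T⁻¹⌋₊ := by
                rw [hk, h2]
                apply Nat.floor_le_floor
                have h4 : (Q : ℝ) ≤ q := by exact_mod_cast hq1.1.le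
                exact mul_le_mul_of_nonneg_right (pow_le_pow_left₀ (by positivity) h4 2) (by positivity)
              omega
          obtain ⟨T, hTc, hTt⟩ := (hB q).2 hq0 ((r q : ℤ) : ZMod q) (cop_unit q _ hq3) (hr q hq0 hq2 hq3) k hkq
          refine ⟨T, by rw [hTc]; exact hkH, fun _ => ⟨fun t ht => (hTt t ht).1, ?_⟩⟩
          have h1 : f q = ME x q ((r q : ℤ) : ZMod q) := if_pos ⟨hq2, hq3⟩
          rw [h1, ← hTc, ← nsmul_eq_mul, ← sum_const]
          exact sum_le_sum fun t ht => (hTt t ht).2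
        · refine ⟨∅, by simp; linarith, fun hq1 => ⟨fun t ht => absurd ht (notMem_empty t), ?_⟩⟩
          have h1 : f q = 0 := if_neg (fun h2 => hq ⟨hq1, h2⟩)
          rw [h1, mul_zero, sum_empty]
      choose T hT1 hT2 using hT
      have hbb := hb Q H (fun q => (T q).image ZMod.val) hH1 hQ1 hQr (fun q _ => le_trans (by exact_mod_cast card_image_le) (hT1 q)) ?_ hQH
      · have h1 : (k : ℝ) * ∑ q ∈ Ioc Q (2 * Q), f q ≤ H * x / L ^ (c + 3) := by
          refine le_trans ?_ hbb
          rw [mul_sum]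
          refine sum_le_sum fun q hq => ?_
          obtain ⟨h2, h3⟩ := hT2 q hq
          refine h3.trans (le_of_eq ?_)
          have hq0 : 1 ≤ q := by rw [mem_Ioc] at hq; omega
          haveI : NeZero q := ⟨by omega⟩
          have h4 : ((T q).image ZMod.val).filter (fun a => Nat.Coprime a q) = (T q).image ZMod.val := by
            apply filter_true_of_mem
            intro a ha
            obtain ⟨b, hb, rfl⟩ := mem_image.1 ha
            have h5 := h2 b hb
            rw [← ZMod.natCast_zmod_val b] at h5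
            exact (ZMod.isUnit_iff_coprime _ _).1 h5
          show ∑ t ∈ T q, ME x q t = ∑ a ∈ ((T q).image ZMod.val).filter (fun a => Nat.Coprime a q), ME x q (a : ZMod q)
          rw [h4, sum_image (fun a _ b _ hab => ZMod.val_injective q hab)]
          refine sum_congr rfl fun t _ => ?_
          rw [ZMod.natCast_zmod_val]
        have h2 : ∑ q ∈ Ioc Q (2 * Q), f q ≤ H * x / L ^ (c + 3) / k := by
          rw [le_div_iff₀ hkr, mul_comm]
          exact h1
        refine h2.trans ?_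
        rw [div_le_iff₀ hkr]
        calc H * x / L ^ (c + 3) ≤ 2 * k * x / L ^ (c + 3) := by gcongr
          _ = 2 * x / L ^ (c + 3) * k := by ring
      · -- no coincidences
        have h1 : ∀ q ∈ Ioc Q (2 * Q), (coll q ((T q).image ZMod.val) : ℝ) ≤ H := by
          intro q hq
          have hq0 : 1 ≤ q := by rw [mem_Ioc] at hq; omega
          haveI : NeZero q := ⟨by omega⟩
          refine le_trans ?_ (hT1 q)
          have h2 : (((T q).image ZMod.val) ×ˢ ((T q).image ZMod.val)).filter (fun p => p.1 ≡ p.2 [MOD q]) ⊆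
              (T q).image (fun a => (a.val, a.val)) := by
            intro p hp
            rw [mem_filter, mem_product] at hp
            obtain ⟨⟨hp1, hp2⟩, hp3⟩ := hp
            obtain ⟨a, ha, ha2⟩ := mem_image.1 hp1
            obtain ⟨b, _, hb2⟩ := mem_image.1 hp2
            rw [mem_image]
            refine ⟨a, ha, Prod.ext ha2 ?_⟩
            rw [← ha2, ← hb2] at hp3
            unfold Nat.ModEq at hp3
            rw [Nat.mod_eq_of_lt (ZMod.val_lt a), Nat.mod_eq_of_lt (ZMod.val_lt b)] at hp3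
            rw [← hb2]
            exact hp3
          have h3 := (card_le_card h2).trans card_image_le
          unfold coll
          exact_mod_cast h3
        refine (sum_le_sum h1).trans ?_
        rw [sum_const, Nat.card_Ioc, nsmul_eq_mul]
        have h4 : 2 * Q - Q = Q := by omega
        rw [h4]
        have h5 : (0 : ℝ) ≤ Q * H := by positivity
        linarith)
  refine hdy.trans ?_
  have h4 : 0 ≤ 2 * (x : ℝ) / L ^ (c + 3) := by positivity
  refine (mul_le_mul_of_nonneg_right hJL h4).trans ?_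
  have h5 : L ^ 2 * (2 * (x : ℝ) / L ^ (c + 3)) = x / L ^ c * (2 / L) := by
    rw [pow_add]
    field_simp
  rw [h5]
  have h6 : 2 / L ≤ 1 := by
    rw [div_le_one hL0]
    linarith
  exact mul_le_of_le_one_right (by positivity) h6

end Pool.Agent.H35.FL
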