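import Pool.Agent.H35.FX.Dy
import Pool.Agent.H35.FL.Top

/-!
# FL Dy: exceptional classes which are constant on dyadic ranges, log powers

`B(x,q)` is the set of the classes with the `⌊q^2 (log Y)^D / Y⌋` largest errors up to `Y`, `Y` the least power of two `≥ x` (the
empty set for small `x`).  The union over the `x ≥ X` is a union over powers of two and has at most `C (q^2/X) (log X)^D` elements.
-/

set_option autoImplicit false

namespace Pool.Agent.H35.FL

open Finset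
open Pool.Agent.H91.EHA (err err_one)
open Pool.Agent.H80.KF (ME)
open Pool.Agent.H35.FX (ME_mono dy le_dy dy_le TopK exists_topK ME_nonneg)

/-- the scale -/
private noncomputable def TT (D Y : ℕ) : ℝ := Y / Real.log Y ^ D

private theorem log_dy (x : ℕ) (hx : 2 ≤ x) : Real.log (dy x : ℕ) ≤ 2 * Real.log x ∧ Real.log x ≤ Real.log (dy x : ℕ) := by
  have hxr : (2 : ℝ) ≤ x := by exact_mod_cast hx
  have h1 : ((dy x : ℕ) : ℝ) ≤ 2 * x := by exact_mod_cast dy_le x (by omega)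
  have h2 : (x : ℝ) ≤ (dy x : ℕ) := by exact_mod_cast le_dy x
  constructor
  · have h3 := Real.log_le_log (by linarith) h1
    rw [Real.log_mul (by norm_num) (by linarith)] at h3
    have h4 := Real.log_le_log (by norm_num) hxr
    linarith
  · exact Real.log_le_log (by linarith) h2

private theorem dy_sum (D : ℕ) : ∃ K : ℝ, 0 < K ∧ ∀ N J : ℕ, 1 ≤ N →
    ∑ j ∈ Ico N (N + J), (j : ℝ) ^ D / 2 ^ j ≤ K * ((N : ℝ) ^ D / 2 ^ N) := by
  have hs : Summable (fun i : ℕ => ((i : ℝ) + 1) ^ D * (1 / 2 : ℝ) ^ i) := by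
    have h1 : Summable (fun n : ℕ => (n : ℝ) ^ D * (1 / 2 : ℝ) ^ n) :=
      summable_pow_mul_geometric_of_norm_lt_one D (by rw [Real.norm_eq_abs, abs_of_pos] <;> norm_num)
    have h2 := ((summable_nat_add_iff 1).2 h1).mul_left 2
    refine h2.congr fun i => ?_
    push_cast
    rw [pow_succ]
    ring
  refine ⟨∑' i : ℕ, ((i : ℝ) + 1) ^ D * (1 / 2 : ℝ) ^ i, ?_, fun N J hN => ?_⟩
  · refine hs.tsum_pos (fun i => by positivity) 0 (by positivity)
  · have hN1 : (1 : ℝ) ≤ N := by exact_mod_cast hN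
    rw [sum_Ico_eq_sum_range, Nat.add_sub_cancel_left]
    have h1 : ∀ i ∈ range J, ((N + i : ℕ) : ℝ) ^ D / 2 ^ (N + i) ≤
        (((i : ℝ) + 1) ^ D * (1 / 2 : ℝ) ^ i) * ((N : ℝ) ^ D / 2 ^ N) := by
      intro i _
      have h2 : ((N + i : ℕ) : ℝ) ≤ N * ((i : ℝ) + 1) := by
        push_cast
        have : (0 : ℝ) ≤ i := Nat.cast_nonneg i
        nlinarith
      calc ((N + i : ℕ) : ℝ) ^ D / 2 ^ (N + i) ≤ (N * ((i : ℝ) + 1)) ^ D / 2 ^ (N + i) := by gcongr
        _ = _ := by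
            rw [mul_pow, pow_add, one_div, inv_pow]
            field_simp
    refine (sum_le_sum h1).trans ?_
    rw [← sum_mul]
    exact mul_le_mul_of_nonneg_right (hs.sum_le_tsum _ fun i _ => by positivity) (by positivity)

/-- Exceptional classes, constant on dyadic ranges. -/
theorem dy_sets_log (c : ℕ) :
    ∃ K : ℝ, ∃ B : ℕ → (q : ℕ) → Finset (ZMod q),
      (∀ x q : ℕ, 2 ≤ x → ((B x q).card : ℝ) ≤ (q : ℝ) ^ 2 / x * Real.log x ^ (meD (c + 4) + 1)) ∧
      (∀ X q : ℕ, 2 ≤ X → ((⋃ x ∈ Set.Ici X, (B x q : Set (ZMod q))).ncard : ℝ) ≤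
        K * ((q : ℝ) ^ 2 / X * Real.log X ^ (meD (c + 4) + 1))) ∧
      ∃ x0 : ℕ, ∀ x : ℕ, x0 ≤ x → ∀ z : ℕ, (z : ℝ) ≤ x / Real.log x ^ (meD (c + 4) + 1) → ∀ r : ℕ → ℤ,
        (∀ q ∈ Icc 1 z, IsCoprime (r q) (q : ℤ) → (r q : ZMod q) ∉ B x q) →
        EML z x r ≤ x / Real.log x ^ c := by
  classical
  obtain ⟨D, hD⟩ : ∃ D : ℕ, D = meD (c + 4) := ⟨_, rfl⟩
  rw [← hD]
  choose b0 hb0 using fun (Y q : ℕ) => exists_topK Y q ⌊(q : ℝ) ^ 2 * (TT D Y)⁻¹⌋₊
  have hTT : ∀ Y : ℕ, (TT D Y)⁻¹ = Real.log Y ^ D / Y := by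
    intro Y
    unfold TT
    rw [inv_div]
  have hlY : ∀ Y : ℕ, 0 ≤ Real.log Y := fun Y => Real.log_natCast_nonneg Y
  have hcard : ∀ Y q : ℕ, ((b0 Y q).card : ℝ) ≤ (q : ℝ) ^ 2 * (Real.log Y ^ D / Y) := by
    intro Y q
    have h1 : ((b0 Y q).card : ℝ) ≤ ((⌊(q : ℝ) ^ 2 * (TT D Y)⁻¹⌋₊ : ℕ) : ℝ) := by exact_mod_cast (hb0 Y q).1
    rw [← hTT]
    refine h1.trans (Nat.floor_le ?_)
    rw [hTT]
    have := hlY Y
    positivity
  obtain ⟨K1, hK1, hsum⟩ := dy_sum D
  have hl2 : 0 < Real.log 2 := Real.log_pos (by norm_num)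
  refine ⟨K1 * 2 ^ D / Real.log 2, fun x q => if (2 : ℝ) ^ D ≤ Real.log x then b0 (dy x) q else ∅, ?_, ?_, ?_⟩
  · intro x q hx
    have hxr : (2 : ℝ) ≤ x := by exact_mod_cast hx
    have hL0 := hlY x
    by_cases h : (2 : ℝ) ^ D ≤ Real.log x
    · simp only [h, if_true]
      refine (hcard (dy x) q).trans ?_
      rw [div_mul_eq_mul_div, mul_div_assoc]
      refine mul_le_mul_of_nonneg_left ?_ (by positivity)
      obtain ⟨h1, h2⟩ := log_dy x hx
      have h3 : (x : ℝ) ≤ (dy x : ℕ) := by exact_mod_cast le_dy x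
      have h4 : Real.log (dy x : ℕ) ^ D ≤ Real.log x ^ (D + 1) := by
        calc Real.log (dy x : ℕ) ^ D ≤ (2 * Real.log x) ^ D := pow_le_pow_left₀ (hlY _) h1 D
          _ = 2 ^ D * Real.log x ^ D := mul_pow _ _ _
          _ ≤ Real.log x * Real.log x ^ D := mul_le_mul_of_nonneg_right h (by positivity)
          _ = Real.log x ^ (D + 1) := by rw [pow_succ, mul_comm]
      exact div_le_div₀ (by positivity) h4 (by linarith) h3
    · simp only [h, if_false, card_empty, Nat.cast_zero]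
      positivity
  · intro X q hX
    have hXr : (2 : ℝ) ≤ X := by exact_mod_cast hX
    -- beyond `J` all sets are empty
    obtain ⟨J, hJ⟩ : ∃ J : ℕ, ∀ j : ℕ, J ≤ j → b0 (2 ^ j) q = ∅ := by
      have h1 : Filter.Tendsto (fun j : ℕ => ((q : ℝ) ^ 2 * Real.log 2 ^ D) * ((j : ℝ) ^ D / (2 : ℝ) ^ j)) Filter.atTop
          (nhds (((q : ℝ) ^ 2 * Real.log 2 ^ D) * 0)) :=
        (tendsto_pow_const_div_const_pow_of_one_lt D (by norm_num : (1 : ℝ) < 2)).const_mul _
      rw [mul_zero] at h1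
      obtain ⟨J, hJ⟩ := Filter.eventually_atTop.1 (h1.eventually (gt_mem_nhds (show (0 : ℝ) < 1 by norm_num)))
      refine ⟨J, fun j hj => ?_⟩
      have h2 := hcard (2 ^ j) q
      have h3 : (q : ℝ) ^ 2 * (Real.log ((2 ^ j : ℕ) : ℝ) ^ D / ((2 ^ j : ℕ) : ℝ)) =
          ((q : ℝ) ^ 2 * Real.log 2 ^ D) * ((j : ℝ) ^ D / (2 : ℝ) ^ j) := by
        rw [Nat.cast_pow, Nat.cast_ofNat, Real.log_pow, mul_pow]
        ring
      rw [h3] at h2
      have h4 : ((b0 (2 ^ j) q).card : ℝ) < 1 := lt_of_le_of_lt h2 (hJ j hj)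
      have h5 : (b0 (2 ^ j) q).card < 1 := by exact_mod_cast h4
      exact card_eq_zero.1 (by omega)
    set N := Nat.clog 2 X with hN
    have hN1 : 1 ≤ N := Nat.clog_pos (by norm_num) (by omega)
    have hsub : (⋃ x ∈ Set.Ici X, ((if (2 : ℝ) ^ D ≤ Real.log x then b0 (dy x) q else ∅ : Finset (ZMod q)) : Set (ZMod q))) ⊆
        (((Ico N (N + J)).biUnion (fun j => b0 (2 ^ j) q) : Finset (ZMod q)) : Set (ZMod q)) := by
      intro w hw
      simp only [Set.mem_iUnion, Set.mem_Ici, mem_coe] at hw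
      obtain ⟨x, hx, hw⟩ := hw
      have hw' : w ∈ b0 (dy x) q := by
        by_cases h : (2 : ℝ) ^ D ≤ Real.log x
        · rwa [if_pos h] at hw
        · rw [if_neg h] at hw
          exact absurd hw (notMem_empty _)
      rw [mem_coe, mem_biUnion]
      refine ⟨Nat.clog 2 x, ?_, hw'⟩
      rw [mem_Ico]
      refine ⟨Nat.clog_mono_right 2 hx, ?_⟩
      by_contra hcon
      push Not at hcon
      have h1 := hJ (Nat.clog 2 x) (by omega)
      unfold dy at hw'
      rw [h1] at hw'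
      exact absurd hw' (notMem_empty _)
    have h1 : (⋃ x ∈ Set.Ici X, ((if (2 : ℝ) ^ D ≤ Real.log x then b0 (dy x) q else ∅ : Finset (ZMod q)) : Set (ZMod q))).ncard ≤
        ((Ico N (N + J)).biUnion (fun j => b0 (2 ^ j) q)).card := by
      refine (Set.ncard_le_ncard hsub (finite_toSet _)).trans ?_
      rw [Set.ncard_coe_finset]
    have h2 : (((Ico N (N + J)).biUnion (fun j => b0 (2 ^ j) q)).card : ℝ) ≤
        ∑ j ∈ Ico N (N + J), ((b0 (2 ^ j) q).card : ℝ) := by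
      exact_mod_cast card_biUnion_le
    have h3 : ∑ j ∈ Ico N (N + J), ((b0 (2 ^ j) q).card : ℝ) ≤
        ∑ j ∈ Ico N (N + J), ((q : ℝ) ^ 2 * Real.log 2 ^ D) * ((j : ℝ) ^ D / (2 : ℝ) ^ j) := by
      refine sum_le_sum fun j _ => ?_
      have h4 := hcard (2 ^ j) q
      have h3 : (q : ℝ) ^ 2 * (Real.log ((2 ^ j : ℕ) : ℝ) ^ D / ((2 ^ j : ℕ) : ℝ)) =
          ((q : ℝ) ^ 2 * Real.log 2 ^ D) * ((j : ℝ) ^ D / (2 : ℝ) ^ j) := by
        rw [Nat.cast_pow, Nat.cast_ofNat, Real.log_pow, mul_pow]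
        ring
      rwa [h3] at h4
    rw [← mul_sum] at h3
    have h4 := hsum N J hN1
    have h5 : Real.log 2 ^ D * ((N : ℝ) ^ D / 2 ^ N) ≤ 2 ^ D * (Real.log X ^ D / X) := by
      have h6 : (X : ℝ) ≤ 2 ^ N := by
        have : X ≤ 2 ^ N := Nat.le_pow_clog (by norm_num) X
        exact_mod_cast this
      have h7 : (N : ℝ) * Real.log 2 ≤ 2 * Real.log X := by
        have h8 := (log_dy X hX).1
        unfold dy at h8
        rw [Nat.cast_pow, Nat.cast_ofNat, Real.log_pow] at h8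
        exact h8
      calc Real.log 2 ^ D * ((N : ℝ) ^ D / 2 ^ N) = ((N : ℝ) * Real.log 2) ^ D / 2 ^ N := by rw [mul_pow]; ring
        _ ≤ (2 * Real.log X) ^ D / X := by
            have h9 : 0 ≤ (N : ℝ) * Real.log 2 := by positivity
            exact div_le_div₀ (by have := hlY X; positivity) (pow_le_pow_left₀ h9 h7 D) (by linarith) h6
        _ = _ := by rw [mul_pow]; ring
    have hlX : Real.log 2 ≤ Real.log X := Real.log_le_log (by norm_num) hXr
    have hlX0 : 0 ≤ Real.log X := by linarith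
    have h6 : Real.log X ^ D ≤ Real.log X ^ (D + 1) / Real.log 2 := by
      rw [le_div_iff₀ hl2, pow_succ]
      exact mul_le_mul_of_nonneg_left hlX (by positivity)
    have h7 : ((⋃ x ∈ Set.Ici X, ((if (2 : ℝ) ^ D ≤ Real.log x then b0 (dy x) q else ∅ : Finset (ZMod q)) : Set (ZMod q))).ncard : ℝ) ≤
        (((Ico N (N + J)).biUnion (fun j => b0 (2 ^ j) q)).card : ℝ) := by exact_mod_cast h1
    refine h7.trans (h2.trans (h3.trans ?_))
    calc (q : ℝ) ^ 2 * Real.log 2 ^ D * ∑ j ∈ Ico N (N + J), (j : ℝ) ^ D / 2 ^ j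
        ≤ (q : ℝ) ^ 2 * Real.log 2 ^ D * (K1 * ((N : ℝ) ^ D / 2 ^ N)) := mul_le_mul_of_nonneg_left h4 (by positivity)
      _ = (q : ℝ) ^ 2 * K1 * (Real.log 2 ^ D * ((N : ℝ) ^ D / 2 ^ N)) := by ring
      _ ≤ (q : ℝ) ^ 2 * K1 * (2 ^ D * (Real.log X ^ D / X)) := mul_le_mul_of_nonneg_left h5 (by positivity)
      _ ≤ (q : ℝ) ^ 2 * K1 * (2 ^ D * ((Real.log X ^ (D + 1) / Real.log 2) / X)) := by gcongr
      _ = K1 * 2 ^ D / Real.log 2 * ((q : ℝ) ^ 2 / X * Real.log X ^ (D + 1)) := by ring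
  · obtain ⟨x1, hx1⟩ := top_sets_log (c + 1)
    have hDc : meD (c + 1 + 3) = D := by rw [hD]
    rw [hDc] at hx1
    obtain ⟨x2, hx2⟩ := Filter.eventually_atTop.1 ((Real.tendsto_log_atTop.comp
      tendsto_natCast_atTop_atTop).eventually_ge_atTop (max (2 : ℝ) (2 ^ D)))
    refine ⟨max (max x1 x2) 2, fun x hx z hz r hr => ?_⟩
    have hxx1 : x1 ≤ x := (le_max_left _ _).trans ((le_max_left _ _).trans hx)
    have hxx2 : x2 ≤ x := (le_max_right _ _).trans ((le_max_left _ _).trans hx)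
    have hx2' : 2 ≤ x := (le_max_right _ _).trans hx
    have hL' : max (2 : ℝ) (2 ^ D) ≤ Real.log x := hx2 x hxx2
    have hL : (2 : ℝ) ≤ Real.log x := (le_max_left _ _).trans hL'
    have hLD : (2 : ℝ) ^ D ≤ Real.log x := (le_max_right _ _).trans hL'
    obtain ⟨h1, h2⟩ := log_dy x hx2'
    set Y := dy x with hY
    have hxY : x ≤ Y := le_dy x
    have hYx : Y ≤ 2 * x := dy_le x (by omega)
    have hxr : (2 : ℝ) ≤ x := by exact_mod_cast hx2'
    have hYr : (x : ℝ) ≤ Y := by exact_mod_cast hxY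
    have hYr2 : (Y : ℝ) ≤ 2 * x := by exact_mod_cast hYx
    have hLY : 2 ≤ Real.log Y := hL.trans h2
    have hLYD : 0 < Real.log Y ^ D := by positivity
    have hTpos : 0 < TT D Y := by
      unfold TT
      have : (0 : ℝ) < Y := by linarith
      positivity
    have hTY : TT D Y * Real.log Y ^ D ≤ Y := by
      unfold TT
      rw [div_mul_cancel₀ _ hLYD.ne']
    have h4 : Real.log Y ^ D ≤ Real.log x ^ (D + 1) := by
      calc Real.log Y ^ D ≤ (2 * Real.log x) ^ D := pow_le_pow_left₀ (hlY _) h1 D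
        _ = 2 ^ D * Real.log x ^ D := mul_pow _ _ _
        _ ≤ Real.log x * Real.log x ^ D := mul_le_mul_of_nonneg_right hLD (by positivity)
        _ = Real.log x ^ (D + 1) := by rw [pow_succ, mul_comm]
    have hzT : (z : ℝ) ≤ TT D Y := by
      refine hz.trans ?_
      unfold TT
      exact div_le_div₀ (by linarith) hYr hLYD h4
    have h5 := hx1 Y (hxx1.trans hxY) (TT D Y) z hTpos hTY hzT (b0 Y) (fun q => hb0 Y q) r (by
      intro q hq1 hq2 hcop
      have h6 := hr q (mem_Icc.2 ⟨hq1, hq2⟩) hcop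
      simp only [hLD, if_true] at h6
      exact h6)
    have h6 : EML z x r ≤ EML z Y r := by
      unfold EML
      exact sum_le_sum fun q _ => ME_mono _ _ _ _ hxY
    refine h6.trans (h5.trans ?_)
    have hL0 : 0 < Real.log x := by linarith
    calc (Y : ℝ) / Real.log Y ^ (c + 1) ≤ (2 * x) / Real.log x ^ (c + 1) :=
          div_le_div₀ (by positivity) hYr2 (by positivity) (pow_le_pow_left₀ hL0.le h2 _)
      _ = (2 / Real.log x) * (x / Real.log x ^ c) := by
          rw [pow_succ]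
          field_simp
      _ ≤ 1 * (x / Real.log x ^ c) := by
          refine mul_le_mul_of_nonneg_right ?_ (by positivity)
          rw [div_le_one hL0]
          exact hL
      _ = x / Real.log x ^ c := one_mul _

end Pool.Agent.H35.FL
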