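import Pool.Agent.H94.EH.H91.EHA.GTwoB
import Pool.Agent.H35.FL.Om

/-!
# FL Rg: sharp cut-off, log powers

As `gtwo_range` in H91.EHA.GTwoB, with `x^ε` replaced by a power of `log x`.
-/

set_option autoImplicit false

namespace Pool.Agent.H35.FL

open Finset
open Pool.Agent.H91.PK
open Pool.Agent.H91.EHA

/-- the exponent of `log x` -/
def rgD (c : ℕ) : ℕ := omD (3 * (c + 3) + c + 2)

theorem gtwo_range_log (c : ℕ) :
    ∃ x0 : ℕ, ∀ x : ℕ, x0 ≤ x →
    ∀ y Q : ℕ, ∀ H : ℝ, ∀ S : ℕ → Finset ℕ, y ≤ x → 1 ≤ Q → (Q : ℝ) * Real.log x ^ (rgD c) ≤ x → 1 ≤ H →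
      FamL Q H S →
      (Q : ℝ) ^ 2 * Real.log x ^ (rgD c) ≤ H * x →
      ∑ q ∈ Ioc Q (2 * Q), ∑ a ∈ (S q).filter (fun a => Nat.Coprime a q),
        |psiA y q a - y / (q.totient : ℝ)| ≤ H * x / Real.log x ^ c := by
  obtain ⟨C, hC, hsharp⟩ := gtwob_sharp
  obtain ⟨C2, hC2, hpnt⟩ := pnt (c + 2)
  obtain ⟨x1, hx1⟩ := gtwo_om_log (3 * (c + 3) + c + 2)
  obtain ⟨x2, hx2⟩ := gtwob_params (1 / 2) (by norm_num) (3 * (c + 3) + c + 4)
    (2 + 26 * C + 3 * C2 * 2 ^ (c + 2) + 6)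
  refine ⟨max x1 x2, fun x hx y Q H S hy hQ hQθ hH1 hFam hQH => ?_⟩
  have hS := hFam.1
  obtain ⟨hLK, hx1', _, hym⟩ := hx2 x (le_trans (le_max_right _ _) hx)
  have hom := hx1 x (le_trans (le_max_left _ _) hx)
  set L := Real.log x with hLdef
  have hC2' : 0 ≤ 3 * C2 * 2 ^ (c + 2) := by positivity
  have hL2 : 2 ≤ L := by linarith only [hC, hLK, hC2']
  have hL0 : 0 < L := by linarith only [hC, hLK, hC2']
  have hL1 : 1 ≤ L := by linarith only [hC, hLK, hC2']
  have hQm' : (Q : ℝ) * L ^ (3 * (c + 3) + c + 4) ≤ x := by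
    refine le_trans (mul_le_mul_of_nonneg_left (pow_le_pow_right₀ hL1 ?_) (Nat.cast_nonneg _)) hQθ
    unfold rgD omD
    omega
  have hH0 : (0 : ℝ) ≤ H := by linarith
  have hQ0 : (1 : ℝ) ≤ Q := by exact_mod_cast hQ
  have hx0 : (0 : ℝ) < x := by exact_mod_cast hx1'
  have hLm : 1 ≤ L ^ (3 * (c + 3) + c + 4) := one_le_pow₀ hL1
  have hQx : Q ≤ x := by
    have : (Q : ℝ) ≤ x := by
      calc (Q : ℝ) = Q * 1 := (mul_one _).symm
        _ ≤ Q * L ^ (3 * (c + 3) + c + 4) := by gcongr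
        _ ≤ x := hQm'
    exact_mod_cast this
  have hLmx : L ^ (3 * (c + 3) + c + 4) ≤ x := by
    calc L ^ (3 * (c + 3) + c + 4) = 1 * L ^ (3 * (c + 3) + c + 4) := (one_mul _).symm
      _ ≤ Q * L ^ (3 * (c + 3) + c + 4) := by gcongr
      _ ≤ x := hQm'
  by_cases hcase : y * y ≤ x
  · -- small `y`
    refine (gtwob_triv hH0 hS hQ hQx hL2 hy).trans ?_
    have hym' := hym y hcase
    rw [mul_div_assoc]
    refine mul_le_mul_of_nonneg_left ?_ hH0
    rw [le_div_iff₀ (by positivity)]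
    have h1 : ((y : ℝ) + Q) * L ^ (3 * (c + 3) + c + 4) ≤ 2 * x := by
      rw [add_mul]; linarith only [hQm', hym']
    have h2 : L ^ (3 * (c + 3) + c + 4) = L ^ 3 * (L * L ^ c) * L ^ (3 * (c + 2) + 3) := by
      ring
    have h3 : 8 ≤ L ^ 3 := by
      calc (8 : ℝ) = 2 ^ 3 := by norm_num
        _ ≤ L ^ 3 := by gcongr
    have h4 : 1 ≤ L ^ (3 * (c + 2) + 3) := one_le_pow₀ hL1
    have h5 : 8 * (L * L ^ c) ≤ L ^ (3 * (c + 3) + c + 4) := by
      rw [h2]
      calc 8 * (L * L ^ c) = 8 * (L * L ^ c) * 1 := by ring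
        _ ≤ L ^ 3 * (L * L ^ c) * L ^ (3 * (c + 2) + 3) := by gcongr
    have h6 : 0 ≤ (y : ℝ) + Q := by positivity
    have h7 := mul_le_mul_of_nonneg_left h5 h6
    nlinarith only [hQm', hym', h7]
  · -- large `y`
    push Not at hcase
    have hy2 : 2 ≤ y := by
      by_contra hcon
      have h1 : y * y ≤ 1 := by
        have : y ≤ 1 := by omega
        calc y * y ≤ 1 * 1 := Nat.mul_le_mul this this
          _ = 1 := rfl
      have h2 : x = 0 := by omega
      omega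
    have h1 := hsharp Q x y (c + 3) S H (H * x / L ^ (3 * (c + 3) + c + 2)) hH0 hS hQ hQx hL2 hy hy2
      (by positivity) (by omega)
      (fun N hN1 hN2 => hom N Q H S hN1 hN2 hQ hQθ hH1 hFam hQH)
    rw [← hLdef] at h1
    have h2 : ∑ q ∈ Ioc Q (2 * Q), ∑ a ∈ (S q).filter (fun a => Nat.Coprime a q),
        |psiA y q a - y / (q.totient : ℝ)| ≤
        ∑ q ∈ Ioc Q (2 * Q), ∑ a ∈ (S q).filter (fun a => Nat.Coprime a q),
          |gtwobG (fun _ => 1) y q a| +
        ∑ q ∈ Ioc Q (2 * Q), ∑ a ∈ (S q).filter (fun a => Nat.Coprime a q),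
          (3 * L / Q) * (C2 * 2 ^ (c + 2) * x / L ^ (c + 2) + 2 * L * L) := by
      rw [← sum_add_distrib]
      refine sum_le_sum fun q hq => ?_
      rw [← sum_add_distrib]
      refine sum_le_sum fun a _ => ?_
      have h3 := gtwob_main_term hQ hQx hL2 hq hy hy2 hcase hC2 (hpnt y hy2)
      have h4 := (gtwob_phi hQ hQx hL2 hq).2
      have h5 : psiA y q a - y / (q.totient : ℝ) = gtwobG (fun _ => 1) y q a +
          (1 / (q.totient : ℝ)) *
            ((∑ n ∈ (Icc 1 y).filter (fun n => Nat.Coprime n q), Lam n) - y) := by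
        unfold gtwobG psiA
        simp only [mul_one]
        ring
      rw [h5]
      refine (abs_add_le _ _).trans (add_le_add le_rfl ?_)
      rw [abs_mul, abs_of_nonneg (by positivity : (0 : ℝ) ≤ 1 / (q.totient : ℝ))]
      exact mul_le_mul h4 h3 (abs_nonneg _) (by positivity)
    have h3 := gtwob_sum_le Q S H
      (fun _ _ => (3 * L / Q) * (C2 * 2 ^ (c + 2) * x / L ^ (c + 2) + 2 * L * L)) _
      (by positivity) hS (fun q _ a _ => le_rfl)
    have hc4 : L ^ (c + 4) ≤ x := (pow_le_pow_right₀ hL1 (by omega)).trans hLmx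
    have hcQ : (Q : ℝ) * L ^ (3 * (c + 3) + c + 3) ≤ x := by
      refine le_trans ?_ hQm'
      have := pow_le_pow_right₀ hL1 (show 3 * (c + 3) + c + 3 ≤ 3 * (c + 3) + c + 4 by omega)
      gcongr
    -- everything in units of `H x / L^(c+1)`
    set U : ℝ := H * x / L ^ (c + 1) with hU
    have hU0 : 0 ≤ U := by positivity
    have e1 : (H : ℝ) * x / L ^ (3 * (c + 3) + c + 2) * (2 * L ^ (3 * (c + 3))) ≤ 2 * U := by
      have : (H : ℝ) * x / L ^ (3 * (c + 3) + c + 2) * (2 * L ^ (3 * (c + 3))) =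
          2 * U * (1 / L) := by
        rw [hU]
        have e : L ^ (3 * (c + 3) + c + 2) = L ^ (3 * (c + 3)) * (L ^ (c + 1) * L) := by ring
        rw [e]
        field_simp
      rw [this]
      have h4 : 1 / L ≤ 1 := by
        rw [div_le_one hL0]; exact hL1
      calc 2 * U * (1 / L) ≤ 2 * U * 1 := by gcongr
        _ = _ := mul_one _
    have e2 : 8 * (H : ℝ) * L ^ 2 * (x / L ^ (c + 3)) = 8 * U := by
      rw [hU]
      have e : L ^ (c + 3) = L ^ 2 * L ^ (c + 1) := by ring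
      rw [e]
      field_simp
    have e3 : (H : ℝ) * L ^ 3 ≤ U := by
      rw [hU, le_div_iff₀ (by positivity)]
      calc (H : ℝ) * L ^ 3 * L ^ (c + 1) = H * L ^ (c + 4) := by ring
        _ ≤ H * x := by gcongr
    have e4 : (H : ℝ) * L ^ 2 * (Q * L ^ (3 * (c + 3))) ≤ U := by
      rw [hU, le_div_iff₀ (by positivity)]
      calc (H : ℝ) * L ^ 2 * (Q * L ^ (3 * (c + 3))) * L ^ (c + 1) =
            H * (Q * L ^ (3 * (c + 3) + c + 3)) := by ring
        _ ≤ H * x := by gcongr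
    have e5 : (H : ℝ) * (Q * ((3 * L / Q) *
        (C2 * 2 ^ (c + 2) * x / L ^ (c + 2) + 2 * L * L))) =
        3 * C2 * 2 ^ (c + 2) * U + 6 * (H * L ^ 3) := by
      rw [hU]
      have e : L ^ (c + 2) = L * L ^ (c + 1) := by ring
      rw [e]
      field_simp
      ring
    have h6 : (H : ℝ) * x / L ^ c = L * U := by
      rw [hU, pow_succ]
      field_simp
    rw [h6]
    have h7 : C * ((H : ℝ) * x / L ^ (3 * (c + 3) + c + 2) * (2 * L ^ (3 * (c + 3))) +
        8 * H * L ^ 2 * (x / L ^ (c + 3) + L + Q * L ^ (3 * (c + 3)))) ≤ C * (26 * U) := by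
      refine mul_le_mul_of_nonneg_left ?_ hC.le
      have : 8 * (H : ℝ) * L ^ 2 * (x / L ^ (c + 3) + L + Q * L ^ (3 * (c + 3))) =
          8 * (H : ℝ) * L ^ 2 * (x / L ^ (c + 3)) + 8 * (H * L ^ 3) +
            8 * (H * L ^ 2 * (Q * L ^ (3 * (c + 3)))) := by ring
      rw [this, e2]
      linarith only [e1, e3, e4]
    have h8 : (2 + 26 * C + 3 * C2 * 2 ^ (c + 2) + 6) * U ≤ L * U :=
      mul_le_mul_of_nonneg_right hLK hU0
    rw [e5] at h3
    linarith only [h1, h2, h3, hU0, e3, h7, h8]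

end Pool.Agent.H35.FL
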